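import Pool.Agent.L5helper40.AF.M4
import Pool.Agent.Results.MP_cc4f83_nt.EvenCentralValues

/-!
# The nonzero central values of the newforms of weight two and prime level over abelian fields

Let `X` be a group of Dirichlet characters modulo `q`, that is, an abelian number field `K` of
conductor dividing `q`, and let the prime `N` not divide `q`. For the newforms `f` of weight two and
level `N` the product of the nonzero central values `|L(1/2, f ⊗ χ)|`, `f ∈ H_2(N)`, `χ ∈ X`, is at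
least `(N q) ^ (- C |X| |H_2(N)|)` with an absolute constant `C`. So all but few of the nonzero
central values `L(1/2, f ⊗ χ)`, and of the nonzero central values
`L(1/2, f_K) = ∏ L(1/2, f ⊗ χ)` of the base changes to `K`, are larger than a power of `1/(N q)`.

Proof. The differences of the values at two cusps with denominators prime to `N` of the primitives
of all newforms form vectors of the lattice `Λ` of the periods, and so do their Hecke translates and
their translates by the Fricke involution. The Fourier transform over `X` of suitable integral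
combinations gives vectors of the lattice `Λ ⊗ ℤ[G]`, where `G` is the dual group of `X`, whose
coordinates are the products of Gauss sums, Hecke eigenvalues, values of `χ` and the central values
(Birch, Manin). The covolume of `Λ` is at least `N ^ (- 296 g)` (starting library), so the covolume of
`Λ ⊗ ℤ[G]` is not small either. The vectors are completed to a basis by short vectors; the
determinant has a block structure after a change of the complex coordinates that takes care of the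
complex conjugation.
-/

set_option autoImplicit false

open Complex Filter Topology Set UpperHalfPlane MatrixGroups CongruenceSubgroup

namespace Pool.Agent.Results.MP_cc4f83_nt.AbelianFields

/-- the cusp forms of weight 2 for `Γ₀(N)` -/
abbrev S2 (N : ℕ) : Type := CuspForm (Gamma0 N : Subgroup (GL (Fin 2) ℝ)) 2

/-- the newforms of root number `ε`: `a(1) = 1`, real coefficients, Hecke relations, and
`f(-1/(Nz)) = - ε N z² f(z)` with `ε = 1` or `ε = -1` (see `W388.IsNewf`) -/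
def H (N : ℕ) (ε : ℝ) : Set (S2 N) := {f | W388.IsNewf N 2 f ε}

/-- all newforms -/
def HH (N : ℕ) : Set (S2 N) := H N 1 ∪ H N (-1)

/-- `L` is the L-function of `f ⊗ χ`: the entire continuation of `∑ χ*(n) λ_f(n) n^(-s)`, where
`χ*` is the primitive character that induces `χ` and `λ_f(n) = a(n) n^(-1/2)` -/
def IsLfun {N q : ℕ} (f : S2 N) (χ : DirichletCharacter ℂ q) (L : ℂ → ℂ) : Prop :=
  Differentiable ℂ L ∧ ∀ s : ℂ, 4 < s.re → L s = ∑' n : ℕ,
    χ.primitiveCharacter (n : ZMod χ.conductor) * (W388.lamf f n : ℂ) * (n : ℂ) ^ (-s)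

open Classical in
/-- the central value `L(1/2, f ⊗ χ)` -/
noncomputable def cv {N q : ℕ} (f : S2 N) (χ : DirichletCharacter ℂ q) : ℂ :=
  if h : ∃ L : ℂ → ℂ, IsLfun f χ L then h.choose (1 / 2) else 0

/-- the central value `L(1/2, f_K) = ∏ L(1/2, f ⊗ χ)` of the base change to the field `K` of the
group `X` of characters -/
noncomputable def cvK {N q : ℕ} (f : S2 N) (X : Subgroup (DirichletCharacter ℂ q)) : ℂ :=
  ∏ᶠ χ : X, cv f χ.1

/-- the filter of the primes `N → ∞` -/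
def primes : Filter ℕ := atTop ⊓ 𝓟 {N : ℕ | N.Prime}

open Pool.Agent.K4H13.CV Pool.Agent.Y18.BSD Pool.Agent.L5helper40.AF

theorem HH_eq (N : ℕ) : HH N = {f | ∃ ε : ℝ, W388.IsNewf N 2 f ε} := by
  ext f
  constructor
  · rintro (h | h)
    · exact ⟨1, h⟩
    · exact ⟨-1, h⟩
  · rintro ⟨ε, h⟩
    rcases h.sign with rfl | rfl
    · exact Or.inl h
    · exact Or.inr h

theorem cv_spec {N q : ℕ} {f : S2 N} {χ : DirichletCharacter ℂ q} {L : ℂ → ℂ}
    (hL : IsLfun f χ L) : L (1 / 2) = cv f χ := by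
  have h : ∃ L : ℂ → ℂ, IsLfun f χ L := ⟨L, hL⟩
  unfold cv
  rw [dif_pos h]
  have h1 : IsLtw f χ L := hL
  have h2 : IsLtw f χ h.choose := h.choose_spec
  rw [IsLtw.unique h1 h2]

/-- everything for one prime -/
theorem one : ∃ C : ℝ, 0 < C ∧ ∀ N q : ℕ, N.Prime → 3 ≤ N → 1 ≤ q → q.Coprime N →
    ∃ B : Finset (S2 N), HH N = B ∧ ∀ (X : Subgroup (DirichletCharacter ℂ q)) [Fintype X],
      (∀ f ∈ B, ∀ χ : X, ∃ L : ℂ → ℂ, IsLfun f χ.1 L ∧ L (1 / 2) = cv f χ.1) ∧
      (∀ f ∈ B, ∀ χ : X, ‖cv f χ.1‖ ≤ ((N : ℝ) * q) ^ C) ∧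
      ((N : ℝ) * q) ^ (-(331 * ((B.card * Fintype.card X : ℕ) : ℝ))) ≤
        ∏ p ∈ (B ×ˢ (Finset.univ : Finset X)) with ‖cv p.1 p.2.1‖ ≠ 0, ‖cv p.1 p.2.1‖ := by
  classical
  obtain ⟨K, hK0, hK⟩ := rel
  obtain ⟨k0, hk0⟩ := pow_unbounded_of_one_lt K (show (1 : ℝ) < 3 by norm_num)
  refine ⟨k0 + 16, by positivity, fun N q hN h3 hq hqN => ?_⟩
  haveI : NeZero N := ⟨hN.ne_zero⟩
  haveI : NeZero q := ⟨by omega⟩
  have h2 : N ≠ 2 := by omega
  obtain ⟨B, hB, hBm⟩ := newform_basis N hN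
  have hN3 : (3 : ℝ) ≤ N := by exact_mod_cast h3
  have hq1 : (1 : ℝ) ≤ q := by exact_mod_cast hq
  have hM3 : (3 : ℝ) ≤ (N : ℝ) * q := by nlinarith
  have hM0 : (0 : ℝ) < (N : ℝ) * q := by linarith
  have hM1 : (1 : ℝ) ≤ (N : ℝ) * q := by linarith
  refine ⟨B, ?_, ?_⟩
  · rw [HH_eq]
    ext f
    exact (hBm f).symm
  intro X _
  have hall : ∀ f ∈ B, ∀ χ : X, (∃ L : ℂ → ℂ, IsLfun f χ.1 L ∧ L (1 / 2) = cv f χ.1) ∧
      (cv f χ.1 = 0 ↔ yy X χ f = 0) ∧ ‖yy X χ f‖ ≤ ((N : ℝ) * q) ^ 2 * ‖cv f χ.1‖ ∧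
      ‖cv f χ.1‖ ≤ K * ((N : ℝ) * q) ^ 16 := by
    intro f hf χ
    obtain ⟨ε, hε⟩ := (hBm f).1 hf
    obtain ⟨L, h1, h5, h6, h7, -⟩ := hK N q hN h2 hqN X χ f ε hε
    have h4 : L (1 / 2) = cv f χ.1 := cv_spec h1
    rw [h4] at h5 h6 h7
    exact ⟨⟨L, h1, h4⟩, h5, h6, h7⟩
  refine ⟨fun f hf χ => (hall f hf χ).1, fun f hf χ => ?_, ?_⟩
  · refine (hall f hf χ).2.2.2.trans ?_
    have e1 : ((N : ℝ) * q) ^ ((k0 : ℝ) + 16) = ((N : ℝ) * q) ^ k0 * ((N : ℝ) * q) ^ 16 := by
      rw [Real.rpow_add hM0, Real.rpow_natCast, show (16 : ℝ) = ((16 : ℕ) : ℝ) by norm_num,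
        Real.rpow_natCast]
    rw [e1]
    have e2 : K ≤ ((N : ℝ) * q) ^ k0 := hk0.le.trans (by gcongr)
    gcongr
  · have h1 := yy_prod hN h2 hqN X hB
    have e1 : ∏ p : B × X with yy X p.2 p.1.1 ≠ 0, ‖yy X p.2 p.1.1‖ =
        ∏ p ∈ (B ×ˢ (Finset.univ : Finset X)) with yy X p.2 p.1 ≠ 0, ‖yy X p.2 p.1‖ := by
      rw [Finset.prod_filter, Finset.prod_filter, Finset.prod_product, Fintype.prod_prod_type,
        ← Finset.prod_coe_sort B]
    rw [e1] at h1
    have e2 : (B ×ˢ (Finset.univ : Finset X)).filter (fun p => yy X p.2 p.1 ≠ 0) =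
        (B ×ˢ (Finset.univ : Finset X)).filter (fun p => ‖cv p.1 p.2.1‖ ≠ 0) := by
      refine Finset.filter_congr fun p hp => ?_
      rw [norm_ne_zero_iff]
      exact not_congr (hall p.1 (Finset.mem_product.1 hp).1 p.2).2.1.symm
    rw [e2] at h1
    set F := (B ×ˢ (Finset.univ : Finset X)).filter (fun p => ‖cv p.1 p.2.1‖ ≠ 0) with hF
    have e3 : ∏ p ∈ F, ‖yy X p.2 p.1‖ ≤ ((N : ℝ) * q) ^ (2 * (B.card * Fintype.card X)) *
        ∏ p ∈ F, ‖cv p.1 p.2.1‖ := by
      refine (Finset.prod_le_prod (fun p _ => norm_nonneg _) (fun p hp =>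
        (hall p.1 (Finset.mem_product.1 (Finset.mem_filter.1 hp).1).1 p.2).2.2.1)).trans ?_
      rw [Finset.prod_mul_distrib, Finset.prod_const]
      refine mul_le_mul_of_nonneg_right ?_ (Finset.prod_nonneg fun p _ => norm_nonneg _)
      rw [← pow_mul]
      refine pow_le_pow_right₀ hM1 ?_
      refine Nat.mul_le_mul_left 2 ((Finset.card_filter_le _ _).trans ?_)
      rw [Finset.card_product, Finset.card_univ]
    have h4 := h1.trans e3
    rw [div_le_iff₀ (by positivity)] at h4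
    rw [Real.rpow_neg hM0.le, inv_eq_one_div, show (331 : ℝ) * ((B.card * Fintype.card X : ℕ) : ℝ) =
      ((331 * (B.card * Fintype.card X) : ℕ) : ℝ) by push_cast; rfl, Real.rpow_natCast,
      div_le_iff₀ (by positivity)]
    calc (1 : ℝ) ≤ _ := h4
      _ = (∏ p ∈ F, ‖cv p.1 p.2.1‖) * (((N : ℝ) * q) ^ (2 * (B.card * Fintype.card X)) *
          ((N : ℝ) * q) ^ (329 * (B.card * Fintype.card X))) := by ring
      _ = _ := by
          rw [← pow_add]
          congr 2
          ring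

/-- the products over the characters -/
theorem base {N q : ℕ} {C : ℝ} (hC : 0 < C) {B : Finset (S2 N)} (X : Subgroup (DirichletCharacter ℂ q))
    [Fintype X] (hM : (1 : ℝ) < (N : ℝ) * q)
    (hu : ∀ f ∈ B, ∀ χ : X, ‖cv f χ.1‖ ≤ ((N : ℝ) * q) ^ C)
    (hp : ((N : ℝ) * q) ^ (-(331 * ((B.card * Fintype.card X : ℕ) : ℝ))) ≤
        ∏ p ∈ (B ×ˢ (Finset.univ : Finset X)) with ‖cv p.1 p.2.1‖ ≠ 0, ‖cv p.1 p.2.1‖)
    {A : ℝ} (hA : 0 < A) :
    (((B.filter fun f => ‖cvK f X‖ ≠ 0 ∧ ‖cvK f X‖ <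
      ((N : ℝ) * q) ^ (-(A * (Fintype.card X : ℝ)))).card : ℕ) : ℝ) ≤ (331 + 2 * C) / A * B.card := by
  classical
  set M : ℝ := (N : ℝ) * q with hMdef
  set k : ℕ := Fintype.card X with hk
  have hM0 : 0 < M := by linarith
  have hk1 : 1 ≤ k := Fintype.card_pos
  have hv : ∀ f : S2 N, ‖cvK f X‖ = ∏ χ : X, ‖cv f χ.1‖ := by
    intro f
    unfold cvK
    rw [finprod_eq_prod_of_fintype, norm_prod]
  have hn1 : 1 < M ^ k := one_lt_pow₀ hM (by omega)
  have hle : ∀ f ∈ B, ‖cvK f X‖ ≤ (M ^ k) ^ C := by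
    intro f hf
    rw [hv]
    refine (Finset.prod_le_prod (fun χ _ => norm_nonneg _) (fun χ _ => hu f hf χ)).trans ?_
    rw [Finset.prod_const, Finset.card_univ, ← Real.rpow_natCast, ← Real.rpow_natCast,
      ← Real.rpow_mul hM0.le, ← Real.rpow_mul hM0.le, mul_comm]
  have hlow : (M ^ k) ^ (-((331 + C) * (B.card : ℝ))) ≤ ∏ f ∈ B with ‖cvK f X‖ ≠ 0, ‖cvK f X‖ := by
    set F := (B ×ˢ (Finset.univ : Finset X)).filter (fun p => ‖cv p.1 p.2.1‖ ≠ 0) with hF
    set F' := (B ×ˢ (Finset.univ : Finset X)).filter (fun p => ‖cvK p.1 X‖ ≠ 0) with hF'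
    have hsub : F' ⊆ F := by
      intro p hp
      rw [hF', Finset.mem_filter] at hp
      rw [hF, Finset.mem_filter]
      refine ⟨hp.1, ?_⟩
      have h1 := hp.2
      rw [hv, Finset.prod_ne_zero_iff] at h1
      exact h1 p.2 (Finset.mem_univ _)
    have h1 : ∏ p ∈ F', ‖cv p.1 p.2.1‖ = ∏ f ∈ B with ‖cvK f X‖ ≠ 0, ‖cvK f X‖ := by
      rw [hF', Finset.prod_filter, Finset.prod_product, Finset.prod_filter]
      refine Finset.prod_congr rfl fun f _ => ?_
      by_cases h : ‖cvK f X‖ ≠ 0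
      · simp only [if_pos h]
        rw [← hv]
      · simp only [if_neg h, Finset.prod_const_one]
    have h2 : ∏ p ∈ F, ‖cv p.1 p.2.1‖ ≤ M ^ (C * ((B.card * k : ℕ) : ℝ)) * ∏ p ∈ F', ‖cv p.1 p.2.1‖ := by
      rw [← Finset.prod_sdiff hsub]
      refine mul_le_mul_of_nonneg_right ?_ (Finset.prod_nonneg fun p _ => norm_nonneg _)
      refine (Finset.prod_le_prod (fun p _ => norm_nonneg _) (fun p hp => hu p.1
        (Finset.mem_product.1 (Finset.mem_filter.1 (Finset.mem_sdiff.1 hp).1).1).1 p.2)).trans ?_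
      rw [Finset.prod_const, ← Real.rpow_natCast, ← Real.rpow_mul hM0.le]
      refine Real.rpow_le_rpow_of_exponent_le hM.le (mul_le_mul_of_nonneg_left ?_ hC.le)
      have h3 : (F \ F').card ≤ B.card * k := by
        refine (Finset.card_le_card (Finset.sdiff_subset.trans (Finset.filter_subset _ _))).trans ?_
        rw [Finset.card_product, Finset.card_univ]
      exact_mod_cast h3
    have h3 := hp.trans h2
    rw [h1] at h3
    have h4 : 0 < M ^ (C * ((B.card * k : ℕ) : ℝ)) := Real.rpow_pos_of_pos hM0 _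
    have h5 : (M ^ k) ^ (-((331 + C) * (B.card : ℝ))) =
        M ^ (-(331 * ((B.card * k : ℕ) : ℝ))) / M ^ (C * ((B.card * k : ℕ) : ℝ)) := by
      rw [← Real.rpow_natCast, ← Real.rpow_mul hM0.le, ← Real.rpow_sub hM0]
      congr 1
      push_cast
      ring
    rw [h5, div_le_iff₀ h4]
    linarith
  have h := Fin.count B (fun f => ‖cvK f X‖) (M ^ k) (331 + C) C A hn1 hA (by positivity) hC.le
    (fun f _ => norm_nonneg _) hle hlow
  have e1 : (M ^ k) ^ (-A) = M ^ (-(A * (k : ℝ))) := by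
    rw [← Real.rpow_natCast, ← Real.rpow_mul hM0.le]
    congr 1
    ring
  rw [e1] at h
  refine h.trans (le_of_eq ?_)
  ring

theorem result : ∃ C : ℝ, 0 < C ∧
    (∀ N q : ℕ, N.Prime → 3 ≤ N → 1 ≤ q → q.Coprime N → ∀ X : Subgroup (DirichletCharacter ℂ q),
      ((HH N).Finite ∧
        ∀ f ∈ HH N, ∀ χ ∈ X, ∃ L : ℂ → ℂ, IsLfun f χ L ∧ L (1 / 2) = cv f χ) ∧
      ((N : ℝ) * q) ^ (-(331 * ((Nat.card X : ℝ) * (HH N).ncard))) ≤
        ∏ᶠ p ∈ {p : S2 N × DirichletCharacter ℂ q | p.1 ∈ HH N ∧ p.2 ∈ X ∧ cv p.1 p.2 ≠ 0},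
          ‖cv p.1 p.2‖ ∧
      ∀ A : ℝ, 0 < A →
        (({p : S2 N × DirichletCharacter ℂ q | p.1 ∈ HH N ∧ p.2 ∈ X ∧ cv p.1 p.2 ≠ 0 ∧
          ‖cv p.1 p.2‖ < ((N : ℝ) * q) ^ (-A)}.ncard : ℕ) : ℝ) ≤
            C / A * ((Nat.card X : ℝ) * (HH N).ncard) ∧
        (({f ∈ HH N | cvK f X ≠ 0 ∧ ‖cvK f X‖ < ((N : ℝ) * q) ^ (-(A * Nat.card X))}.ncard : ℕ) : ℝ) ≤
          C / A * (HH N).ncard) ∧
    (∀ q : ℕ, 1 ≤ q → ∀ X : Subgroup (DirichletCharacter ℂ q), ∀ θ : ℝ,
      θ < liminf (fun N : ℕ => (({f ∈ H N 1 | cvK f X ≠ 0}.ncard : ℕ) : ℝ) /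
        ((H N 1).ncard : ℝ)) primes ↔
      ∃ A : ℝ, 0 < A ∧ θ < liminf (fun N : ℕ =>
        (({f ∈ H N 1 | (N : ℝ) ^ (-A) ≤ ‖cvK f X‖}.ncard : ℕ) : ℝ) / ((H N 1).ncard : ℝ)) primes) := by
  classical
  obtain ⟨C, hC, hone⟩ := one
  -- the base change count
  have hbase : ∀ N q : ℕ, N.Prime → 3 ≤ N → 1 ≤ q → q.Coprime N →
      ∀ X : Subgroup (DirichletCharacter ℂ q), ∀ A : ℝ, 0 < A →
        (({f ∈ HH N | cvK f X ≠ 0 ∧ ‖cvK f X‖ < ((N : ℝ) * q) ^ (-(A * Nat.card X))}.ncard : ℕ) : ℝ) ≤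
          (331 + 2 * C) / A * (HH N).ncard := by
    intro N q hN h3 hq hqN X A hA
    haveI : NeZero q := ⟨by omega⟩
    letI : Fintype X := Fintype.ofFinite X
    obtain ⟨B, hB, hX⟩ := hone N q hN h3 hq hqN
    obtain ⟨h1, h2, h4⟩ := hX X
    have hN3 : (3 : ℝ) ≤ N := by exact_mod_cast h3
    have hq1 : (1 : ℝ) ≤ q := by exact_mod_cast hq
    have hM : (1 : ℝ) < (N : ℝ) * q := by nlinarith
    have h5 := base hC X hM h2 h4 hA
    have e1 : ({f ∈ HH N | cvK f X ≠ 0 ∧ ‖cvK f X‖ < ((N : ℝ) * q) ^ (-(A * Nat.card X))} : Set (S2 N)) =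
        ((B.filter fun f => ‖cvK f X‖ ≠ 0 ∧ ‖cvK f X‖ <
          ((N : ℝ) * q) ^ (-(A * (Fintype.card X : ℝ))) : Finset (S2 N)) : Set (S2 N)) := by
      ext f
      rw [Finset.coe_filter, hB, Nat.card_eq_fintype_card]
      simp only [norm_ne_zero_iff]
      rfl
    rw [e1, Set.ncard_coe_finset, hB, Set.ncard_coe_finset]
    exact h5
  refine ⟨331 + 2 * C, by positivity, ?_, ?_⟩
  · intro N q hN h3 hq hqN X
    haveI : NeZero q := ⟨by omega⟩
    letI : Fintype X := Fintype.ofFinite X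
    obtain ⟨B, hB, hX⟩ := hone N q hN h3 hq hqN
    obtain ⟨h1, h2, h4⟩ := hX X
    have hN3 : (3 : ℝ) ≤ N := by exact_mod_cast h3
    have hq1 : (1 : ℝ) ≤ q := by exact_mod_cast hq
    have hM : (1 : ℝ) < (N : ℝ) * q := by nlinarith
    have hcX : Nat.card X = Fintype.card X := Nat.card_eq_fintype_card
    -- the pairs
    let ι : (S2 N × X) ↪ (S2 N × DirichletCharacter ℂ q) :=
      ⟨fun p => (p.1, p.2.1), fun p p' h => by
        have h1 := congrArg Prod.fst h
        have h2 := congrArg Prod.snd h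
        exact Prod.ext h1 (Subtype.ext h2)⟩
    refine ⟨⟨by rw [hB]; exact B.finite_toSet, fun f hf χ hχ => ?_⟩, ?_, fun A hA => ⟨?_, ?_⟩⟩
    · rw [hB] at hf
      exact h1 f hf ⟨χ, hχ⟩
    · have e1 : ({p : S2 N × DirichletCharacter ℂ q | p.1 ∈ HH N ∧ p.2 ∈ X ∧ cv p.1 p.2 ≠ 0} : Set _) =
          ((((B ×ˢ (Finset.univ : Finset X)).filter (fun p => ‖cv p.1 p.2.1‖ ≠ 0)).map ι :
            Finset (S2 N × DirichletCharacter ℂ q)) : Set (S2 N × DirichletCharacter ℂ q)) := by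
        ext ⟨f, χ⟩
        rw [Finset.coe_map, Set.mem_image]
        constructor
        · rintro ⟨hf, hχ, h0⟩
          have hf' : f ∈ B := by
            have : f ∈ HH N := hf
            rw [hB] at this
            exact this
          refine ⟨(f, ⟨χ, hχ⟩), ?_, rfl⟩
          rw [Finset.mem_coe, Finset.mem_filter, Finset.mem_product]
          exact ⟨⟨hf', Finset.mem_univ _⟩, norm_ne_zero_iff.2 h0⟩
        · rintro ⟨p, hp, hpe⟩
          rw [Finset.mem_coe, Finset.mem_filter, Finset.mem_product] at hp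
          have h5 : p.1 = f := congrArg Prod.fst hpe
          have h6 : p.2.1 = χ := congrArg Prod.snd hpe
          refine ⟨?_, ?_, ?_⟩
          · show f ∈ HH N
            rw [hB, ← h5]
            exact hp.1.1
          · show χ ∈ X
            rw [← h6]
            exact p.2.2
          · show cv f χ ≠ 0
            rw [← h5, ← h6]
            exact norm_ne_zero_iff.1 hp.2
      rw [e1, finprod_mem_coe_finset, Finset.prod_map, hB, Set.ncard_coe_finset, hcX]
      refine le_trans (le_of_eq ?_) h4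
      push_cast
      congr 2
      ring
    · have h5 := Fin.count (B ×ˢ (Finset.univ : Finset X)) (fun p => ‖cv p.1 p.2.1‖) ((N : ℝ) * q)
        331 C A hM hA (by norm_num) hC.le (fun p _ => norm_nonneg _)
        (fun p hp => h2 p.1 (Finset.mem_product.1 hp).1 p.2) (by
          rw [Finset.card_product, Finset.card_univ]
          exact h4)
      have e1 : ({p : S2 N × DirichletCharacter ℂ q | p.1 ∈ HH N ∧ p.2 ∈ X ∧ cv p.1 p.2 ≠ 0 ∧
          ‖cv p.1 p.2‖ < ((N : ℝ) * q) ^ (-A)} : Set _) =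
          ((((B ×ˢ (Finset.univ : Finset X)).filter (fun p => ‖cv p.1 p.2.1‖ ≠ 0 ∧
            ‖cv p.1 p.2.1‖ < ((N : ℝ) * q) ^ (-A))).map ι :
            Finset (S2 N × DirichletCharacter ℂ q)) : Set (S2 N × DirichletCharacter ℂ q)) := by
        ext ⟨f, χ⟩
        rw [Finset.coe_map, Set.mem_image]
        constructor
        · rintro ⟨hf, hχ, h0, h7⟩
          have hf' : f ∈ B := by
            have : f ∈ HH N := hf
            rw [hB] at this
            exact this
          refine ⟨(f, ⟨χ, hχ⟩), ?_, rfl⟩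
          rw [Finset.mem_coe, Finset.mem_filter, Finset.mem_product]
          exact ⟨⟨hf', Finset.mem_univ _⟩, norm_ne_zero_iff.2 h0, h7⟩
        · rintro ⟨p, hp, hpe⟩
          rw [Finset.mem_coe, Finset.mem_filter, Finset.mem_product] at hp
          have h5 : p.1 = f := congrArg Prod.fst hpe
          have h6 : p.2.1 = χ := congrArg Prod.snd hpe
          refine ⟨?_, ?_, ?_, ?_⟩
          · show f ∈ HH N
            rw [hB, ← h5]
            exact hp.1.1
          · show χ ∈ X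
            rw [← h6]
            exact p.2.2
          · show cv f χ ≠ 0
            rw [← h5, ← h6]
            exact norm_ne_zero_iff.1 hp.2.1
          · show ‖cv f χ‖ < ((N : ℝ) * q) ^ (-A)
            rw [← h5, ← h6]
            exact hp.2.2
      rw [e1, Set.ncard_coe_finset, Finset.card_map, hB, Set.ncard_coe_finset, hcX]
      refine h5.trans ?_
      rw [Finset.card_product, Finset.card_univ]
      push_cast
      have h8 : (331 + C) / A ≤ (331 + 2 * C) / A := by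
        gcongr
        linarith
      calc (331 + C) / A * ((B.card : ℝ) * (Fintype.card X : ℝ)) ≤
          (331 + 2 * C) / A * ((B.card : ℝ) * (Fintype.card X : ℝ)) :=
            mul_le_mul_of_nonneg_right h8 (by positivity)
        _ = _ := by ring
    · exact hbase N q hN h3 hq hqN X A hA
  · intro q hq X θ
    haveI : NeZero q := ⟨by omega⟩
    have hk : 1 ≤ Nat.card X := Nat.card_pos
    have hk' : (1 : ℝ) ≤ (Nat.card X : ℝ) := by exact_mod_cast hk
    have hbot : primes.NeBot := by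
      unfold primes
      rw [← frequently_mem_iff_neBot]
      exact Nat.frequently_atTop_iff_infinite.2 Nat.infinite_setOf_prime
    have hprime : ∀ᶠ N in primes, N.Prime :=
      (eventually_principal.2 fun _ h => h : ∀ᶠ N in 𝓟 {N : ℕ | N.Prime}, N.Prime).filter_mono
        inf_le_right
    have hlarge : ∀ᶠ N in primes, 650 + q ≤ N :=
      (eventually_ge_atTop (650 + q)).filter_mono inf_le_left
    have hfinH : ∀ N : ℕ, N.Prime → 3 ≤ N → (HH N).Finite := by
      intro N hN h3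
      obtain ⟨B, hB, -⟩ := hone N 1 hN h3 le_rfl (Nat.coprime_one_left N)
      rw [hB]
      exact B.finite_toSet
    have heven : ∀ N : ℕ, N.Prime → 650 ≤ N → 0 < (H N 1).ncard ∧
        ((HH N).ncard : ℝ) ≤ 20 * ((H N 1).ncard : ℝ) := by
      intro N hN h
      have h1 := EvenCentralValues.even_many hN (by omega)
      refine ⟨?_, ?_⟩
      · have h2 : N ≤ 36 * (H N 1).ncard + 65 := h1.1
        omega
      · have h2 : (HH N).ncard ≤ 20 * (H N 1).ncard := h1.2 h
        exact_mod_cast h2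
    refine Fin.liminf_iff (l := primes) (fun N => ((H N 1).ncard : ℝ))
      (fun N => (({f ∈ H N 1 | cvK f X ≠ 0}.ncard : ℕ) : ℝ))
      (fun A N => (({f ∈ H N 1 | (N : ℝ) ^ (-A) ≤ ‖cvK f X‖}.ncard : ℕ) : ℝ))
      (40 * (Nat.card X : ℝ) * (331 + 2 * C)) (by positivity) ?_ ?_ ?_ ?_ θ
    · filter_upwards [hprime, hlarge] with N hN h100
      exact_mod_cast (heven N hN (by omega)).1
    · filter_upwards [hprime, hlarge] with N hN h100
      refine ⟨Nat.cast_nonneg _, ?_⟩
      have hfin : (H N 1).Finite := (hfinH N hN (by omega)).subset fun f hf => Or.inl hf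
      have hs : {f ∈ H N 1 | cvK f X ≠ 0} ⊆ H N 1 := fun f hf => hf.1
      exact Nat.cast_le.2 (Set.ncard_le_ncard hs hfin)
    · intro A
      filter_upwards [hprime, hlarge] with N hN h100
      refine ⟨Nat.cast_nonneg _, ?_⟩
      have hfin := hfinH N hN (by omega)
      have hN0 : (0 : ℝ) < N := Nat.cast_pos.2 hN.pos
      have hs : {f ∈ H N 1 | (N : ℝ) ^ (-A) ≤ ‖cvK f X‖} ⊆ {f ∈ H N 1 | cvK f X ≠ 0} := by
        refine fun f hf => ⟨hf.1, fun h0 => ?_⟩
        have h1 := hf.2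
        rw [h0, norm_zero] at h1
        exact absurd (Real.rpow_pos_of_pos hN0 (-A)) (not_lt.2 h1)
      exact Nat.cast_le.2 (Set.ncard_le_ncard hs (hfin.subset fun f hf => Or.inl hf.1))
    · intro A hA
      filter_upwards [hprime, hlarge] with N hN h100
      have hfin := hfinH N hN (by omega)
      have hN0 : (0 : ℝ) < N := Nat.cast_pos.2 hN.pos
      have hN1 : (1 : ℝ) ≤ N := by exact_mod_cast hN.one_le
      have hqN : q.Coprime N := by
        rw [Nat.coprime_comm, Nat.Prime.coprime_iff_not_dvd hN]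
        intro h
        have := Nat.le_of_dvd (by omega) h
        omega
      set A' : ℝ := A / (2 * (Nat.card X : ℝ)) with hA'
      have hA'0 : 0 < A' := by positivity
      have h0 := hbase N q hN (by omega) hq hqN X A' hA'0
      have hcmp : (N : ℝ) ^ (-A) ≤ ((N : ℝ) * q) ^ (-(A' * Nat.card X)) := by
        have e1 : A' * Nat.card X = A / 2 := by
          rw [hA']
          field_simp
        rw [e1, Real.rpow_neg hN0.le, Real.rpow_neg (by positivity)]
        refine inv_anti₀ (by positivity) ?_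
        have e2 : (N : ℝ) * q ≤ (N : ℝ) ^ (2 : ℝ) := by
          have : (q : ℝ) ≤ N := by
            have : q ≤ N := by omega
            exact_mod_cast this
          rw [show (2 : ℝ) = ((2 : ℕ) : ℝ) by norm_num, Real.rpow_natCast]
          nlinarith
        calc ((N : ℝ) * q) ^ (A / 2) ≤ ((N : ℝ) ^ (2 : ℝ)) ^ (A / 2) :=
              Real.rpow_le_rpow (by positivity) e2 (by positivity)
          _ = (N : ℝ) ^ A := by
              rw [← Real.rpow_mul hN0.le]
              congr 1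
              ring
      have h2 : {f ∈ H N 1 | cvK f X ≠ 0} ⊆ {f ∈ H N 1 | (N : ℝ) ^ (-A) ≤ ‖cvK f X‖} ∪
          {f ∈ HH N | cvK f X ≠ 0 ∧ ‖cvK f X‖ < ((N : ℝ) * q) ^ (-(A' * Nat.card X))} := by
        intro f hf
        rcases le_or_gt ((N : ℝ) ^ (-A)) ‖cvK f X‖ with h | h
        · exact Or.inl ⟨hf.1, h⟩
        · exact Or.inr ⟨Or.inl hf.1, hf.2, h.trans_le hcmp⟩
      have h3 : {f ∈ H N 1 | cvK f X ≠ 0}.ncard ≤ {f ∈ H N 1 | (N : ℝ) ^ (-A) ≤ ‖cvK f X‖}.ncard +
          {f ∈ HH N | cvK f X ≠ 0 ∧ ‖cvK f X‖ < ((N : ℝ) * q) ^ (-(A' * Nat.card X))}.ncard := by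
        refine (Set.ncard_le_ncard h2 ?_).trans (Set.ncard_union_le _ _)
        exact (hfin.subset fun f hf => Or.inl hf.1).union (hfin.subset fun f hf => hf.1)
      have h4 : (({f ∈ H N 1 | cvK f X ≠ 0}.ncard : ℕ) : ℝ) ≤
          (({f ∈ H N 1 | (N : ℝ) ^ (-A) ≤ ‖cvK f X‖}.ncard : ℕ) : ℝ) +
          (({f ∈ HH N | cvK f X ≠ 0 ∧ ‖cvK f X‖ < ((N : ℝ) * q) ^ (-(A' * Nat.card X))}.ncard : ℕ) : ℝ) := by
        exact_mod_cast h3
      have h5 := (heven N hN (by omega)).2
      have h6 : (331 + 2 * C) / A' * ((HH N).ncard : ℝ) ≤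
          40 * (Nat.card X : ℝ) * (331 + 2 * C) / A * ((H N 1).ncard : ℝ) := by
        have e1 : (331 + 2 * C) / A' = 2 * (Nat.card X : ℝ) * (331 + 2 * C) / A := by
          rw [hA']
          field_simp
        rw [e1]
        calc 2 * (Nat.card X : ℝ) * (331 + 2 * C) / A * ((HH N).ncard : ℝ) ≤
            2 * (Nat.card X : ℝ) * (331 + 2 * C) / A * (20 * ((H N 1).ncard : ℝ)) :=
              mul_le_mul_of_nonneg_left h5 (by positivity)
          _ = _ := by ring
      linarith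

end Pool.Agent.Results.MP_cc4f83_nt.AbelianFields
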