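import Pool.Agent.L5helper21.MS.Chr
import Pool.Agent.Results.MP_cc4f83_nt.EvenCentralValues

/-!
# The nonzero values of an integral modular symbol at the newforms of weight two and prime level

For a newform `f` of weight two and prime level `N` and a rational number `r` (any cusp of `X_0(N)`)
let `ms f r = - 2 π i ∫_r^{i∞} f(z) dz`, that is, the limit of `∑ a(n)/n e(n (r + iy))` for `y → 0+`.
So `ms f 0 = L(1/2, f)` is the central value, and for a real primitive character `χ` modulo `q` prime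
to `N` the integral combination `∑ χ(u) ms f (u/q)` has the absolute value `√q |L(1/2, f ⊗ χ)|`.

For an integral combination `m` of rational numbers (an integral modular symbol) let
`val f m = ∑ m(r) ms f r`. The product over all newforms `f` of level `N` of the nonzero real parts
`|Re (val f m)|` is at least `N ^ (- C g)`, where `g` is the number of the newforms and `C` is an
absolute constant, **uniformly in `m`**, and the same holds for the imaginary parts. In particular the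
product of the nonzero `√q |L(1/2, f ⊗ χ)|` is at least `N ^ (- C g)`, uniformly in the real
character `χ`, whose conductor `q` is not bounded in terms of `N`.

Consequences: the number of the forms with small nonzero values, and: for a family of modular symbols
`ξ N` whose size is bounded by a power of `N`, the lower limit of the proportion of the even
newforms `f` with `val f (ξ N) ≠ 0` is larger than `t` if and only if for some `A` the lower limit of the
proportion of the even newforms with `|val f (ξ N)| ≥ N ^ (- A)` is larger than `t`.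

Proof. All values `ms f r` are, for all `f` at the same time, of the form `k L(1/2, f)` plus the period of
an element of `Γ₀(N)`. So the vector of the `(a(2) - 3) val f m` and all its Hecke translates, and
their real and imaginary parts (twice), are in the lattice of the periods. The covolume of the lattice
is at least `N ^ (- 296 g)` (starting library), and it has a basis of short vectors; the determinant
inequality is `main_ineq` of `Pool.Agent.L5helper40.AF.Ch` for the trivial group of characters.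
-/

set_option autoImplicit false

open Complex Filter Topology Set UpperHalfPlane MatrixGroups CongruenceSubgroup

namespace Pool.Agent.Results.MP_cc4f83_nt.IntegralModularSymbols

/-- the cusp forms of weight 2 for `Γ₀(N)` -/
abbrev S2 (N : ℕ) : Type := CuspForm (Gamma0 N : Subgroup (GL (Fin 2) ℝ)) 2

/-- the newforms of root number `ε`: `a(1) = 1`, real coefficients, Hecke relations, and
`f(-1/(Nz)) = - ε N z² f(z)` with `ε = 1` or `ε = -1` (see `W388.IsNewf`) -/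
def H (N : ℕ) (ε : ℝ) : Set (S2 N) := {f | W388.IsNewf N 2 f ε}

/-- all newforms -/
def HH (N : ℕ) : Set (S2 N) := H N 1 ∪ H N (-1)

/-- the primitive `∑ a(n)/n e(nz)` of `2πi f` -/
noncomputable def F {N : ℕ} (f : S2 N) (z : ℂ) : ℂ :=
  ∑' n : ℕ, (qExpansion 1 f).coeff n / n * Complex.exp (2 * Real.pi * Complex.I * n * z)

/-- the modular symbol `{r, i∞}`: the limit of `F(r + iy)` for `y → 0+` -/
noncomputable def ms {N : ℕ} (f : S2 N) (r : ℚ) : ℂ :=
  limUnder (𝓝[>] (0 : ℝ)) (fun y : ℝ => F f ((r : ℂ) + (y : ℂ) * Complex.I))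

/-- the value of an integral modular symbol -/
noncomputable def val {N : ℕ} (f : S2 N) (m : ℚ →₀ ℤ) : ℂ := m.sum fun r k => (k : ℂ) * ms f r

/-- the size of a modular symbol -/
def size (m : ℚ →₀ ℤ) : ℕ := m.sum fun r k => k.natAbs * r.den

/-- `L` is the L-function of `f ⊗ χ`: the entire continuation of `∑ χ(n) λ_f(n) n^(-s)`, where
`λ_f(n) = a(n) n^(-1/2)` -/
def IsLfun {N q : ℕ} (f : S2 N) (χ : DirichletCharacter ℂ q) (L : ℂ → ℂ) : Prop :=
  Differentiable ℂ L ∧ ∀ s : ℂ, 4 < s.re → L s = ∑' n : ℕ,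
    χ (n : ZMod q) * (W388.lamf f n : ℂ) * (n : ℂ) ^ (-s)

/-- the filter of the primes `N → ∞` -/
def primes : Filter ℕ := atTop ⊓ 𝓟 {N : ℕ | N.Prime}

open Pool.Agent.K4H13.CV Pool.Agent.Y18.BSD Pool.Agent.L5helper21

theorem HH_eq (N : ℕ) : HH N = {f | ∃ ε : ℝ, W388.IsNewf N 2 f ε} := by
  ext f
  constructor
  · rintro (h | h)
    · exact ⟨1, h⟩
    · exact ⟨-1, h⟩
  · rintro ⟨ε, h⟩
    rcases h.sign with rfl | rfl
    · exact Or.inl h
    · exact Or.inr h

theorem val_eq {N : ℕ} (f : S2 N) (m : ℚ →₀ ℤ) : val f m = MS.SS f m := rfl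

theorem IsLfun.unique {N q : ℕ} {f : S2 N} {χ : DirichletCharacter ℂ q} {L L' : ℂ → ℂ}
    (h : IsLfun f χ L) (h' : IsLfun f χ L') : L = L' := by
  have hFa : AnalyticOnNhd ℂ L univ := fun z _ => h.1.analyticAt z
  have hGa : AnalyticOnNhd ℂ L' univ := fun z _ => h'.1.analyticAt z
  refine hFa.eq_of_eventuallyEq hGa (z₀ := ((5 : ℝ) : ℂ)) ?_
  have : ∀ᶠ z in 𝓝 (((5 : ℝ)) : ℂ), 4 < z.re := by
    refine (Complex.continuous_re.isOpen_preimage _ isOpen_Ioi).mem_nhds ?_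
    show (4 : ℝ) < (((5 : ℝ)) : ℂ).re
    rw [Complex.ofReal_re]
    norm_num
  filter_upwards [this] with z hz
  rw [h.2 z hz, h'.2 z hz]

/-- everything for one prime -/
theorem one (N : ℕ) (hN : N.Prime) (h3 : 3 ≤ N) :
    ∃ B : Finset (S2 N), HH N = B ∧
      (∀ f ∈ B, ∀ r : ℚ, Tendsto (fun y : ℝ => F f ((r : ℂ) + (y : ℂ) * Complex.I)) (𝓝[>] 0)
        (𝓝 (ms f r))) ∧
      (∀ m : ℚ →₀ ℤ, (∀ f ∈ B, ‖val f m‖ ≤ ((N : ℝ) * (max 1 (size m) : ℕ)) ^ 4) ∧
        (N : ℝ) ^ (-(331 * (B.card : ℝ))) ≤ ∏ f ∈ B with |(val f m).re| ≠ 0, |(val f m).re| ∧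
        (N : ℝ) ^ (-(331 * (B.card : ℝ))) ≤ ∏ f ∈ B with |(val f m).im| ≠ 0, |(val f m).im|) ∧
      (∀ q : ℕ, 1 ≤ q → q.Coprime N → ∀ χ : DirichletCharacter ℂ q, χ.IsPrimitive → χ.IsQuadratic →
        (∀ f ∈ B, ∃ L : ℂ → ℂ, IsLfun f χ L) ∧ ∀ L : S2 N → ℂ → ℂ, (∀ f ∈ B, IsLfun f χ (L f)) →
        (N : ℝ) ^ (-(331 * (B.card : ℝ))) ≤
          ∏ f ∈ B with ‖L f (1 / 2)‖ ≠ 0, Real.sqrt q * ‖L f (1 / 2)‖) := by
  classical
  haveI : NeZero N := ⟨hN.ne_zero⟩
  have h2 : N ≠ 2 := by omega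
  obtain ⟨B, hB, hBm⟩ := newform_basis N hN
  have hN3 : (3 : ℝ) ≤ N := by exact_mod_cast h3
  have hN0 : (0 : ℝ) < N := by linarith
  have hN1 : (1 : ℝ) ≤ N := by linarith
  have hrp : ∀ k : ℕ, k ≤ 331 → (N : ℝ) ^ (-(331 * (B.card : ℝ))) ≤ 1 / (N : ℝ) ^ (k * B.card) := by
    intro k hk
    rw [Real.rpow_neg hN0.le, inv_eq_one_div, show (331 : ℝ) * (B.card : ℝ) =
      ((331 * B.card : ℕ) : ℝ) by push_cast; rfl, Real.rpow_natCast]
    refine one_div_le_one_div_of_le (by positivity) (pow_le_pow_right₀ hN1 ?_)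
    exact Nat.mul_le_mul_right _ hk
  refine ⟨B, ?_, fun f hf r => ?_, fun m => ⟨fun f hf => ?_, ?_, ?_⟩, fun q hq hqN χ hχ hχ2 => ?_⟩
  · rw [HH_eq]
    ext f
    exact (hBm f).symm
  · obtain ⟨ε, hε⟩ := (hBm f).1 hf
    exact MS.ms_tendsto hN hε r
  · obtain ⟨ε, hε⟩ := (hBm f).1 hf
    exact MS.SS_bd hN h3 hε m
  · exact (hrp 331 le_rfl).trans (MS.re_prod hN h2 hB m)
  · exact (hrp 331 le_rfl).trans (MS.im_prod hN h2 hB m)
  · haveI : NeZero q := ⟨by omega⟩
    obtain ⟨m, θ, hθ, hm⟩ := MS.quad hN q hqN χ hχ hχ2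
    refine ⟨fun f hf => ?_, fun L hL => ?_⟩
    · obtain ⟨ε, hε⟩ := (hBm f).1 hf
      obtain ⟨-, L, h4, h5, -⟩ := hm f ε hε
      exact ⟨L, h4, h5⟩
    · have hval : ∀ f ∈ B, ‖MS.SS f m‖ = Real.sqrt q * ‖L f (1 / 2)‖ := by
        intro f hf
        obtain ⟨ε, hε⟩ := (hBm f).1 hf
        obtain ⟨-, L', h4, h5, h6⟩ := hm f ε hε
        have h7 : L' = L f := IsLfun.unique ⟨h4, h5⟩ (hL f hf)
        rw [h6, h7]
      have hs : Real.sqrt q ≠ 0 := by
        have : (0 : ℝ) < q := by exact_mod_cast hq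
        exact (Real.sqrt_pos.2 this).ne'
      have h4 := (hrp 330 (by norm_num)).trans (MS.core hN h2 hB m θ hθ (fun f hf => by
        obtain ⟨ε, hε⟩ := (hBm f).1 hf
        exact (hm f ε hε).1))
      refine h4.trans (le_of_eq ?_)
      rw [Finset.prod_filter, Finset.prod_filter]
      refine Finset.prod_congr rfl fun f hf => ?_
      have h5 := hval f hf
      by_cases h6 : ‖L f (1 / 2)‖ = 0
      · rw [h6, mul_zero, norm_eq_zero] at h5
        rw [if_neg (by simpa using h5), if_neg (by simpa using h6)]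
      · have h7 : MS.SS f m ≠ 0 := by
          rw [← norm_ne_zero_iff, h5]
          exact mul_ne_zero hs h6
        rw [if_pos h7, if_pos h6, h5]

theorem result : ∃ C : ℝ, 0 < C ∧
    (∀ N : ℕ, N.Prime → 3 ≤ N →
      ((HH N).Finite ∧ (∀ f ∈ HH N, ∃ L : ℂ → ℂ, IsLfun f (1 : DirichletCharacter ℂ 1) L ∧
          L (1 / 2) = ms f 0) ∧
        ∀ f ∈ HH N, ∀ r : ℚ, Tendsto (fun y : ℝ => F f ((r : ℂ) + (y : ℂ) * Complex.I)) (𝓝[>] 0)
          (𝓝 (ms f r))) ∧
      (∀ m : ℚ →₀ ℤ,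
        (N : ℝ) ^ (-(C * ((HH N).ncard : ℝ))) ≤
          ∏ᶠ f ∈ {f : S2 N | f ∈ HH N ∧ (val f m).re ≠ 0}, |(val f m).re| ∧
        (N : ℝ) ^ (-(C * ((HH N).ncard : ℝ))) ≤
          ∏ᶠ f ∈ {f : S2 N | f ∈ HH N ∧ (val f m).im ≠ 0}, |(val f m).im| ∧
        ∀ A : ℝ, 0 < A →
          (({f ∈ HH N | (val f m).re ≠ 0 ∧
            |(val f m).re| < ((N : ℝ) * (max 1 (size m) : ℕ)) ^ (-A)}.ncard : ℕ) : ℝ) ≤
            C / A * ((HH N).ncard : ℝ) ∧
          (({f ∈ HH N | (val f m).im ≠ 0 ∧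
            |(val f m).im| < ((N : ℝ) * (max 1 (size m) : ℕ)) ^ (-A)}.ncard : ℕ) : ℝ) ≤
            C / A * ((HH N).ncard : ℝ) ∧
          (({f ∈ HH N | val f m ≠ 0 ∧
            ‖val f m‖ < ((N : ℝ) * (max 1 (size m) : ℕ)) ^ (-A)}.ncard : ℕ) : ℝ) ≤
            C / A * ((HH N).ncard : ℝ)) ∧
      (∀ q : ℕ, 1 ≤ q → q.Coprime N → ∀ χ : DirichletCharacter ℂ q, χ.IsPrimitive → χ.IsQuadratic →
        (∀ f ∈ HH N, ∃ L : ℂ → ℂ, IsLfun f χ L) ∧
        ∀ L : S2 N → ℂ → ℂ, (∀ f ∈ HH N, IsLfun f χ (L f)) →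
          (N : ℝ) ^ (-(C * ((HH N).ncard : ℝ))) ≤
            ∏ᶠ f ∈ {f : S2 N | f ∈ HH N ∧ L f (1 / 2) ≠ 0}, Real.sqrt q * ‖L f (1 / 2)‖)) ∧
    (∀ (ξ : ℕ → ℚ →₀ ℤ) (k : ℕ), (∀ᶠ N in primes, size (ξ N) ≤ N ^ k) → ∀ θ : ℝ,
      θ < liminf (fun N : ℕ => (({f ∈ H N 1 | val f (ξ N) ≠ 0}.ncard : ℕ) : ℝ) /
        ((H N 1).ncard : ℝ)) primes ↔
      ∃ A : ℝ, 0 < A ∧ θ < liminf (fun N : ℕ =>
        (({f ∈ H N 1 | (N : ℝ) ^ (-A) ≤ ‖val f (ξ N)‖}.ncard : ℕ) : ℝ) / ((H N 1).ncard : ℝ)) primes) := by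
  classical
  -- the counts
  have hcount : ∀ N : ℕ, N.Prime → 3 ≤ N → ∀ m : ℚ →₀ ℤ, ∀ A : ℝ, 0 < A →
      (({f ∈ HH N | (val f m).re ≠ 0 ∧
        |(val f m).re| < ((N : ℝ) * (max 1 (size m) : ℕ)) ^ (-A)}.ncard : ℕ) : ℝ) ≤
        335 / A * ((HH N).ncard : ℝ) ∧
      (({f ∈ HH N | (val f m).im ≠ 0 ∧
        |(val f m).im| < ((N : ℝ) * (max 1 (size m) : ℕ)) ^ (-A)}.ncard : ℕ) : ℝ) ≤
        335 / A * ((HH N).ncard : ℝ) ∧
      (({f ∈ HH N | val f m ≠ 0 ∧
        ‖val f m‖ < ((N : ℝ) * (max 1 (size m) : ℕ)) ^ (-A)}.ncard : ℕ) : ℝ) ≤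
        670 / A * ((HH N).ncard : ℝ) := by
    intro N hN h3 m A hA
    obtain ⟨B, hB, -, hm, -⟩ := one N hN h3
    obtain ⟨hu, hre, him⟩ := hm m
    have hN3 : (3 : ℝ) ≤ N := by exact_mod_cast h3
    have hs1 : (1 : ℝ) ≤ ((max 1 (size m) : ℕ) : ℝ) := by exact_mod_cast le_max_left 1 (size m)
    set M : ℝ := (N : ℝ) * (max 1 (size m) : ℕ) with hM
    have hNM : (N : ℝ) ≤ M := by nlinarith
    have hM1 : 1 < M := by linarith
    have hM0 : 0 < M := by linarith
    have hlow : M ^ (-(331 * (B.card : ℝ))) ≤ (N : ℝ) ^ (-(331 * (B.card : ℝ))) := by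
      rw [Real.rpow_neg hM0.le, Real.rpow_neg (by linarith)]
      refine inv_anti₀ (by positivity) ?_
      exact Real.rpow_le_rpow (by linarith) hNM (by positivity)
    have hu' : ∀ f ∈ B, ‖val f m‖ ≤ M ^ (4 : ℝ) := by
      intro f hf
      rw [show (4 : ℝ) = ((4 : ℕ) : ℝ) by norm_num, Real.rpow_natCast]
      exact hu f hf
    have c1 := Fin.count B (fun f => |(val f m).re|) M 331 4 A hM1 hA (by norm_num) (by norm_num)
      (fun f _ => abs_nonneg _) (fun f hf => (Complex.abs_re_le_norm _).trans (hu' f hf))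
      (hlow.trans hre)
    have c2 := Fin.count B (fun f => |(val f m).im|) M 331 4 A hM1 hA (by norm_num) (by norm_num)
      (fun f _ => abs_nonneg _) (fun f hf => (Complex.abs_im_le_norm _).trans (hu' f hf))
      (hlow.trans him)
    rw [show (331 : ℝ) + 4 = 335 by norm_num] at c1 c2
    have e1 : ({f ∈ HH N | (val f m).re ≠ 0 ∧ |(val f m).re| < M ^ (-A)} : Set (S2 N)) =
        ((B.filter fun f => |(val f m).re| ≠ 0 ∧ |(val f m).re| < M ^ (-A) : Finset (S2 N)) :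
          Set (S2 N)) := by
      ext f
      rw [Finset.coe_filter, hB]
      simp only [ne_eq, abs_eq_zero]
      rfl
    have e2 : ({f ∈ HH N | (val f m).im ≠ 0 ∧ |(val f m).im| < M ^ (-A)} : Set (S2 N)) =
        ((B.filter fun f => |(val f m).im| ≠ 0 ∧ |(val f m).im| < M ^ (-A) : Finset (S2 N)) :
          Set (S2 N)) := by
      ext f
      rw [Finset.coe_filter, hB]
      simp only [ne_eq, abs_eq_zero]
      rfl
    have d1 : (({f ∈ HH N | (val f m).re ≠ 0 ∧ |(val f m).re| < M ^ (-A)}.ncard : ℕ) : ℝ) ≤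
        335 / A * ((HH N).ncard : ℝ) := by
      rw [e1, Set.ncard_coe_finset, hB, Set.ncard_coe_finset]
      exact c1
    have d2 : (({f ∈ HH N | (val f m).im ≠ 0 ∧ |(val f m).im| < M ^ (-A)}.ncard : ℕ) : ℝ) ≤
        335 / A * ((HH N).ncard : ℝ) := by
      rw [e2, Set.ncard_coe_finset, hB, Set.ncard_coe_finset]
      exact c2
    refine ⟨d1, d2, ?_⟩
    have hfin : (HH N).Finite := by rw [hB]; exact B.finite_toSet
    have hsub : {f ∈ HH N | val f m ≠ 0 ∧ ‖val f m‖ < M ^ (-A)} ⊆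
        {f ∈ HH N | (val f m).re ≠ 0 ∧ |(val f m).re| < M ^ (-A)} ∪
        {f ∈ HH N | (val f m).im ≠ 0 ∧ |(val f m).im| < M ^ (-A)} := by
      rintro f ⟨hf, h0, h1⟩
      by_cases hr : (val f m).re = 0
      · refine Or.inr ⟨hf, fun hi => h0 (Complex.ext hr hi), ?_⟩
        exact (Complex.abs_im_le_norm _).trans_lt h1
      · exact Or.inl ⟨hf, hr, (Complex.abs_re_le_norm _).trans_lt h1⟩
    have h5 : {f ∈ HH N | val f m ≠ 0 ∧ ‖val f m‖ < M ^ (-A)}.ncard ≤
        {f ∈ HH N | (val f m).re ≠ 0 ∧ |(val f m).re| < M ^ (-A)}.ncard +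
        {f ∈ HH N | (val f m).im ≠ 0 ∧ |(val f m).im| < M ^ (-A)}.ncard := by
      refine (Set.ncard_le_ncard hsub ?_).trans (Set.ncard_union_le _ _)
      exact (hfin.subset fun f hf => hf.1).union (hfin.subset fun f hf => hf.1)
    have h6 : (({f ∈ HH N | val f m ≠ 0 ∧ ‖val f m‖ < M ^ (-A)}.ncard : ℕ) : ℝ) ≤
        (({f ∈ HH N | (val f m).re ≠ 0 ∧ |(val f m).re| < M ^ (-A)}.ncard : ℕ) : ℝ) +
        (({f ∈ HH N | (val f m).im ≠ 0 ∧ |(val f m).im| < M ^ (-A)}.ncard : ℕ) : ℝ) := by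
      exact_mod_cast h5
    calc (({f ∈ HH N | val f m ≠ 0 ∧ ‖val f m‖ < M ^ (-A)}.ncard : ℕ) : ℝ) ≤
        335 / A * ((HH N).ncard : ℝ) + 335 / A * ((HH N).ncard : ℝ) := by linarith
      _ = 670 / A * ((HH N).ncard : ℝ) := by ring
  have hC : ∀ (N : ℕ), 1 ≤ N → ∀ (c g : ℝ), 0 ≤ g → c ≤ 670 → (N : ℝ) ^ (-(670 * g)) ≤
      (N : ℝ) ^ (-(c * g)) := by
    intro N hN c g hg hc
    refine Real.rpow_le_rpow_of_exponent_le (by exact_mod_cast hN) ?_
    nlinarith
  refine ⟨670, by norm_num, ?_, ?_⟩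
  · intro N hN h3
    haveI : NeZero N := ⟨hN.ne_zero⟩
    obtain ⟨B, hB, hlim, hm, hch⟩ := one N hN h3
    have hfin : (HH N).Finite := by rw [hB]; exact B.finite_toSet
    have hcard : ((HH N).ncard : ℝ) = B.card := by rw [hB, Set.ncard_coe_finset]
    refine ⟨⟨hfin, fun f hf => ?_, fun f hf r => hlim f (by rw [hB] at hf; exact hf) r⟩,
      fun m => ⟨?_, ?_, fun A hA => ?_⟩, fun q hq hqN χ hχ hχ2 => ⟨fun f hf => ?_, fun L hL => ?_⟩⟩
    · have hf' : f ∈ {f | ∃ ε : ℝ, W388.IsNewf N 2 f ε} := by rw [← HH_eq]; exact hf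
      obtain ⟨ε, hε⟩ := hf'
      obtain ⟨L, hL, h4⟩ := EvenCentralValues.lfun hε
      refine ⟨L, ⟨hL.1, fun s hs => ?_⟩, ?_⟩
      · rw [hL.2 s (by linarith)]
        refine tsum_congr fun n => ?_
        have : (1 : DirichletCharacter ℂ 1) (n : ZMod 1) = 1 := by
          rw [Subsingleton.elim ((n : ℕ) : ZMod 1) 1]
          exact map_one _
        rw [this, one_mul]
      · rw [h4, EvenCentralValues.cv_eq hε]
        exact (MS.ms_eq_bv hN hε 0 (by simp)).symm
    · have e1 : ({f : S2 N | f ∈ HH N ∧ (val f m).re ≠ 0} : Set (S2 N)) =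
          ((B.filter fun f => |(val f m).re| ≠ 0 : Finset (S2 N)) : Set (S2 N)) := by
        ext f
        rw [Finset.coe_filter, hB]
        simp only [ne_eq, abs_eq_zero]
        rfl
      rw [e1, finprod_mem_coe_finset, hcard]
      exact (hC N (by omega) 331 _ (by positivity) (by norm_num)).trans (hm m).2.1
    · have e1 : ({f : S2 N | f ∈ HH N ∧ (val f m).im ≠ 0} : Set (S2 N)) =
          ((B.filter fun f => |(val f m).im| ≠ 0 : Finset (S2 N)) : Set (S2 N)) := by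
        ext f
        rw [Finset.coe_filter, hB]
        simp only [ne_eq, abs_eq_zero]
        rfl
      rw [e1, finprod_mem_coe_finset, hcard]
      exact (hC N (by omega) 331 _ (by positivity) (by norm_num)).trans (hm m).2.2
    · obtain ⟨c1, c2, c3⟩ := hcount N hN h3 m A hA
      have h6 : (335 : ℝ) / A * ((HH N).ncard : ℝ) ≤ 670 / A * ((HH N).ncard : ℝ) := by
        gcongr
        norm_num
      exact ⟨c1.trans h6, c2.trans h6, c3⟩
    · exact (hch q hq hqN χ hχ hχ2).1 f (by rw [hB] at hf; exact hf)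
    · have h4 := (hch q hq hqN χ hχ hχ2).2 L (fun f hf => hL f (by rw [hB]; exact hf))
      have e1 : ({f : S2 N | f ∈ HH N ∧ L f (1 / 2) ≠ 0} : Set (S2 N)) =
          ((B.filter fun f => ‖L f (1 / 2)‖ ≠ 0 : Finset (S2 N)) : Set (S2 N)) := by
        ext f
        rw [Finset.coe_filter, hB]
        simp only [ne_eq, norm_eq_zero]
        rfl
      rw [e1, finprod_mem_coe_finset, hcard]
      exact (hC N (by omega) 331 _ (by positivity) (by norm_num)).trans h4
  · intro ξ k hξ θ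
    have hbot : primes.NeBot := by
      unfold primes
      rw [← frequently_mem_iff_neBot]
      exact Nat.frequently_atTop_iff_infinite.2 Nat.infinite_setOf_prime
    have hprime : ∀ᶠ N in primes, N.Prime :=
      (eventually_principal.2 fun _ h => h : ∀ᶠ N in 𝓟 {N : ℕ | N.Prime}, N.Prime).filter_mono
        inf_le_right
    have hlarge : ∀ᶠ N in primes, 650 ≤ N :=
      (eventually_ge_atTop 650).filter_mono inf_le_left
    have hfinH : ∀ N : ℕ, N.Prime → 3 ≤ N → (HH N).Finite := by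
      intro N hN h3
      obtain ⟨B, hB, -⟩ := one N hN h3
      rw [hB]
      exact B.finite_toSet
    have heven : ∀ N : ℕ, N.Prime → 650 ≤ N → 0 < (H N 1).ncard ∧
        ((HH N).ncard : ℝ) ≤ 20 * ((H N 1).ncard : ℝ) := by
      intro N hN h
      have h1 := EvenCentralValues.even_many hN (by omega)
      refine ⟨?_, ?_⟩
      · have h2 : N ≤ 36 * (H N 1).ncard + 65 := h1.1
        omega
      · have h2 : (HH N).ncard ≤ 20 * (H N 1).ncard := h1.2 h
        exact_mod_cast h2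
    refine Fin.liminf_iff (l := primes) (fun N => ((H N 1).ncard : ℝ))
      (fun N => (({f ∈ H N 1 | val f (ξ N) ≠ 0}.ncard : ℕ) : ℝ))
      (fun A N => (({f ∈ H N 1 | (N : ℝ) ^ (-A) ≤ ‖val f (ξ N)‖}.ncard : ℕ) : ℝ))
      (13400 * ((k : ℝ) + 1)) (by positivity) ?_ ?_ ?_ ?_ θ
    · filter_upwards [hprime, hlarge] with N hN h100
      exact_mod_cast (heven N hN (by omega)).1
    · filter_upwards [hprime, hlarge] with N hN h100
      refine ⟨Nat.cast_nonneg _, ?_⟩
      have hfin : (H N 1).Finite := (hfinH N hN (by omega)).subset fun f hf => Or.inl hf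
      have hs : {f ∈ H N 1 | val f (ξ N) ≠ 0} ⊆ H N 1 := fun f hf => hf.1
      exact Nat.cast_le.2 (Set.ncard_le_ncard hs hfin)
    · intro A
      filter_upwards [hprime, hlarge] with N hN h100
      refine ⟨Nat.cast_nonneg _, ?_⟩
      have hfin := hfinH N hN (by omega)
      have hN0 : (0 : ℝ) < N := Nat.cast_pos.2 hN.pos
      have hs : {f ∈ H N 1 | (N : ℝ) ^ (-A) ≤ ‖val f (ξ N)‖} ⊆ {f ∈ H N 1 | val f (ξ N) ≠ 0} := by
        refine fun f hf => ⟨hf.1, fun h0 => ?_⟩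
        have h1 := hf.2
        rw [h0, norm_zero] at h1
        exact absurd (Real.rpow_pos_of_pos hN0 (-A)) (not_lt.2 h1)
      exact Nat.cast_le.2 (Set.ncard_le_ncard hs (hfin.subset fun f hf => Or.inl hf.1))
    · intro A hA
      filter_upwards [hprime, hlarge, hξ] with N hN h100 hsz
      have hfin := hfinH N hN (by omega)
      have hN0 : (0 : ℝ) < N := Nat.cast_pos.2 hN.pos
      have hN1 : (1 : ℝ) ≤ N := by exact_mod_cast hN.one_le
      set A' : ℝ := A / ((k : ℝ) + 1) with hA'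
      have hk1 : (0 : ℝ) < (k : ℝ) + 1 := by positivity
      have hA'0 : 0 < A' := by positivity
      have h0 := (hcount N hN (by omega) (ξ N) A' hA'0).2.2
      set M : ℝ := (N : ℝ) * (max 1 (size (ξ N)) : ℕ) with hM
      have hs1 : (1 : ℝ) ≤ ((max 1 (size (ξ N)) : ℕ) : ℝ) := by
        exact_mod_cast le_max_left 1 (size (ξ N))
      have hM0 : 0 < M := by positivity
      have hMN : M ≤ (N : ℝ) ^ ((k : ℝ) + 1) := by
        have e1 : ((max 1 (size (ξ N)) : ℕ) : ℝ) ≤ (N : ℝ) ^ k := by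
          have : max 1 (size (ξ N)) ≤ N ^ k := max_le (Nat.one_le_pow _ _ hN.pos) hsz
          exact_mod_cast this
        rw [show (k : ℝ) + 1 = ((k + 1 : ℕ) : ℝ) by push_cast; rfl, Real.rpow_natCast, pow_succ, hM,
          mul_comm]
        exact mul_le_mul_of_nonneg_right e1 hN0.le
      have hcmp : (N : ℝ) ^ (-A) ≤ M ^ (-A') := by
        rw [Real.rpow_neg hN0.le, Real.rpow_neg hM0.le]
        refine inv_anti₀ (by positivity) ?_
        calc M ^ A' ≤ ((N : ℝ) ^ ((k : ℝ) + 1)) ^ A' := Real.rpow_le_rpow hM0.le hMN hA'0.le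
          _ = (N : ℝ) ^ A := by
              rw [← Real.rpow_mul hN0.le]
              congr 1
              rw [hA']
              field_simp
      have h2 : {f ∈ H N 1 | val f (ξ N) ≠ 0} ⊆ {f ∈ H N 1 | (N : ℝ) ^ (-A) ≤ ‖val f (ξ N)‖} ∪
          {f ∈ HH N | val f (ξ N) ≠ 0 ∧ ‖val f (ξ N)‖ < M ^ (-A')} := by
        intro f hf
        rcases le_or_gt ((N : ℝ) ^ (-A)) ‖val f (ξ N)‖ with h | h
        · exact Or.inl ⟨hf.1, h⟩
        · exact Or.inr ⟨Or.inl hf.1, hf.2, h.trans_le hcmp⟩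
      have h3 : {f ∈ H N 1 | val f (ξ N) ≠ 0}.ncard ≤
          {f ∈ H N 1 | (N : ℝ) ^ (-A) ≤ ‖val f (ξ N)‖}.ncard +
          {f ∈ HH N | val f (ξ N) ≠ 0 ∧ ‖val f (ξ N)‖ < M ^ (-A')}.ncard := by
        refine (Set.ncard_le_ncard h2 ?_).trans (Set.ncard_union_le _ _)
        exact (hfin.subset fun f hf => Or.inl hf.1).union (hfin.subset fun f hf => hf.1)
      have h4 : (({f ∈ H N 1 | val f (ξ N) ≠ 0}.ncard : ℕ) : ℝ) ≤
          (({f ∈ H N 1 | (N : ℝ) ^ (-A) ≤ ‖val f (ξ N)‖}.ncard : ℕ) : ℝ) +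
          (({f ∈ HH N | val f (ξ N) ≠ 0 ∧ ‖val f (ξ N)‖ < M ^ (-A')}.ncard : ℕ) : ℝ) := by
        exact_mod_cast h3
      have h5 := (heven N hN (by omega)).2
      have h6 : 670 / A' * ((HH N).ncard : ℝ) ≤
          13400 * ((k : ℝ) + 1) / A * ((H N 1).ncard : ℝ) := by
        have e1 : 670 / A' = 670 * ((k : ℝ) + 1) / A := by
          rw [hA']
          field_simp
        rw [e1]
        calc 670 * ((k : ℝ) + 1) / A * ((HH N).ncard : ℝ) ≤
            670 * ((k : ℝ) + 1) / A * (20 * ((H N 1).ncard : ℝ)) :=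
              mul_le_mul_of_nonneg_left h5 (by positivity)
          _ = _ := by ring
      linarith

end Pool.Agent.Results.MP_cc4f83_nt.IntegralModularSymbols
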