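import Pool.Agent.K4H13.CV.Ex2
import Pool.Agent.L5helper21.UB.Prod

/-!
# A lower bound for the nonzero central values over abelian fields, uniform in the conductor

Let `N ≥ 3` be a prime, `X` a group of Dirichlet characters modulo `q`, that is, an abelian number
field `K` of degree `|X|` with absolute discriminant `∏ cond(χ)`, `χ ∈ X`. (Nothing is assumed about
`q`: `K` may be ramified at `N`.) Let `Y ⊆ X` be a set of characters that contains with `χ` the Galois
conjugates of `χ`. For the newforms `f` of weight two and level `N` the product of the nonzero numbers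

`√(cond χ) |L(1/2, f ⊗ χ)|`, `f ∈ H_2(N)`, `χ ∈ Y`,

is at least `(N |X|) ^ (- 330 |X| |H_2(N)|)`. The bound depends on the level `N` and the degree
`|X| = [K : ℚ]`, but not on the conductor of `K`. (In `AbelianFields` the bound is
`(N q) ^ (- 331 |X| |H_2(N)|)`, `Y = X`, and `q` is prime to `N`.) For example, for a primitive
character `χ` of order `d` and any conductor `q` the product over all newforms and over the conjugates
`χ^n`, `n` prime to `d`, of the nonzero `√q |L(1/2, f ⊗ χ^n)|` is at least `(N d) ^ (- 330 d |H_2(N)|)`.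

Proof. For every class `g` modulo `q` the vector of the sums `∑ χ(g) ∑ χ*(a)⁻¹ {a/c}`, `χ ∈ Y`,
`c = cond χ`, `a` modulo `c`, is integral, since the sums of the values `χ(h)` over the `χ ∈ Y` of a
given conductor are integers (`sum_cond_closed`). So they are values of integral modular symbols
(`SS_mem` of the library of `IntegralModularSymbols`). The determinant inequality of
`Pool.Agent.L5helper40.AF.Ch` is used with representatives of the units modulo the common kernel of
the characters only (`main_ineq_card`), so that the order of the units modulo `q` is replaced by `|X|`.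
For the characters whose conductor is divisible by `N` the entire continuation of the L-function
and the formula for the central value are proved in `Pool.Agent.L5helper21.UB.Tw`.
-/

set_option autoImplicit false

open Complex Filter Topology Set UpperHalfPlane MatrixGroups CongruenceSubgroup

namespace Pool.Agent.Results.MP_cc4f83_nt.UniformAbelianTwists

/-- the cusp forms of weight 2 for `Γ₀(N)` -/
abbrev S2 (N : ℕ) : Type := CuspForm (Gamma0 N : Subgroup (GL (Fin 2) ℝ)) 2

/-- the newforms of root number `ε`: `a(1) = 1`, real coefficients, Hecke relations, and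
`f(-1/(Nz)) = - ε N z² f(z)` with `ε = 1` or `ε = -1` (see `W388.IsNewf`) -/
def H (N : ℕ) (ε : ℝ) : Set (S2 N) := {f | W388.IsNewf N 2 f ε}

/-- all newforms -/
def HH (N : ℕ) : Set (S2 N) := H N 1 ∪ H N (-1)

/-- `L` is the L-function of `f ⊗ χ`: the entire continuation of `∑ χ*(n) λ_f(n) n^(-s)`, where
`χ*` is the primitive character that induces `χ` and `λ_f(n) = a(n) n^(-1/2)` -/
def IsLfun {N q : ℕ} (f : S2 N) (χ : DirichletCharacter ℂ q) (L : ℂ → ℂ) : Prop :=
  Differentiable ℂ L ∧ ∀ s : ℂ, 4 < s.re → L s = ∑' n : ℕ,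
    χ.primitiveCharacter (n : ZMod χ.conductor) * (W388.lamf f n : ℂ) * (n : ℂ) ^ (-s)

/-- `Y` contains with `χ` the conjugates of `χ`, that is, all generators of the group generated by
`χ` -/
def IsGaloisStable {q : ℕ} (Y : Set (DirichletCharacter ℂ q)) : Prop :=
  ∀ χ ∈ Y, ∀ ψ : DirichletCharacter ℂ q, Subgroup.zpowers ψ = Subgroup.zpowers χ → ψ ∈ Y

open Pool.Agent.K4H13.CV Pool.Agent.Y18.BSD Pool.Agent.L5helper40.AF Pool.Agent.L5helper21

theorem HH_eq (N : ℕ) : HH N = {f | ∃ ε : ℝ, W388.IsNewf N 2 f ε} := by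
  ext f
  constructor
  · rintro (h | h)
    · exact ⟨1, h⟩
    · exact ⟨-1, h⟩
  · rintro ⟨ε, h⟩
    rcases h.sign with rfl | rfl
    · exact Or.inl h
    · exact Or.inr h

theorem result : ∀ N : ℕ, N.Prime → 3 ≤ N → (HH N).Finite ∧
    ∀ q : ℕ, 1 ≤ q →
      (∀ f ∈ HH N, ∀ χ : DirichletCharacter ℂ q, ∃! L : ℂ → ℂ, IsLfun f χ L) ∧
      ∀ (X : Subgroup (DirichletCharacter ℂ q)) (Y : Set (DirichletCharacter ℂ q)), Y ⊆ X →
        IsGaloisStable Y → ∀ L : S2 N → DirichletCharacter ℂ q → ℂ → ℂ,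
        (∀ f ∈ HH N, ∀ χ ∈ Y, IsLfun f χ (L f χ)) →
        ((N : ℝ) * Nat.card X) ^ (-(330 * ((Nat.card X : ℝ) * ((HH N).ncard : ℝ)))) ≤
          ∏ᶠ p ∈ {p : S2 N × DirichletCharacter ℂ q | p.1 ∈ HH N ∧ p.2 ∈ Y ∧ L p.1 p.2 (1 / 2) ≠ 0},
            Real.sqrt p.2.conductor * ‖L p.1 p.2 (1 / 2)‖ := by
  classical
  intro N hN h3
  haveI : NeZero N := ⟨hN.ne_zero⟩
  have h2 : N ≠ 2 := by omega
  obtain ⟨B, hB, hBm⟩ := newform_basis N hN
  have hHB : HH N = B := by
    rw [HH_eq]
    ext f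
    exact (hBm f).symm
  have hN3 : (3 : ℝ) ≤ N := by exact_mod_cast h3
  refine ⟨by rw [hHB]; exact B.finite_toSet, fun q hq => ?_⟩
  haveI : NeZero q := ⟨by omega⟩
  obtain ⟨K, hK0, hK⟩ := UB.uv_val
  have hL0 : ∀ f ∈ HH N, ∀ χ : DirichletCharacter ℂ q, ∃ L : ℂ → ℂ, IsLfun f χ L ∧
      ‖UB.us χ χ.conductor f‖ = Real.sqrt χ.conductor * ‖L (1 / 2)‖ := by
    intro f hf χ
    have hf' : f ∈ {f | ∃ ε : ℝ, W388.IsNewf N 2 f ε} := by rw [← HH_eq]; exact hf
    obtain ⟨ε, hε⟩ := hf'
    obtain ⟨L, h1, h4, -⟩ := hK N q hN h2 χ f ε hε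
    exact ⟨L, h1, h4⟩
  refine ⟨fun f hf χ => ?_, fun X Y hYX hY L hL => ?_⟩
  · obtain ⟨L, h1, -⟩ := hL0 f hf χ
    exact ⟨L, h1, fun L' h' => IsLtw.unique h' h1⟩
  · have hval : ∀ f ∈ HH N, ∀ χ ∈ Y, ‖UB.us χ χ.conductor f‖ =
        Real.sqrt χ.conductor * ‖L f χ (1 / 2)‖ := by
      intro f hf χ hχ
      obtain ⟨L', h4, h5⟩ := hL0 f hf χ
      rw [h5, IsLtw.unique h4 (hL f hf χ hχ)]
    have hs : ∀ χ : DirichletCharacter ℂ q, Real.sqrt χ.conductor ≠ 0 := by
      intro χ
      have : (0 : ℝ) < χ.conductor := by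
        exact_mod_cast Nat.pos_of_ne_zero (DirichletCharacter.conductor_ne_zero χ)
      exact (Real.sqrt_pos.2 this).ne'
    haveI : Fintype X := Fintype.ofFinite X
    have key := UB.uy_prod hN h2 X Y hY hB
    rw [← Nat.card_eq_fintype_card] at key
    have hk1 : 1 ≤ Nat.card X := Nat.card_pos
    have hk1R : (1 : ℝ) ≤ Nat.card X := by exact_mod_cast hk1
    have hM0 : (0 : ℝ) < (N : ℝ) * Nat.card X := by nlinarith
    have e1 : ((N : ℝ) * Nat.card X) ^ (-(330 * ((Nat.card X : ℝ) * ((HH N).ncard : ℝ)))) =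
        1 / ((N : ℝ) * Nat.card X) ^ (330 * (B.card * Nat.card X)) := by
      rw [hHB, Set.ncard_coe_finset, Real.rpow_neg hM0.le, inv_eq_one_div,
        show (330 : ℝ) * ((Nat.card X : ℝ) * (B.card : ℝ)) =
          ((330 * (B.card * Nat.card X) : ℕ) : ℝ) by push_cast; ring, Real.rpow_natCast]
    rw [e1]
    refine key.trans (le_of_eq ?_)
    set s : Finset (B × X) := Finset.univ.filter fun p : B × X =>
      p.2.1 ∈ Y ∧ UB.us p.2.1 p.2.1.conductor p.1.1 ≠ 0 with hs'
    have hinj : Function.Injective (fun p : B × X => ((p.1.1, p.2.1) : S2 N × DirichletCharacter ℂ q)) := by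
      intro p p' h
      have h4 := congrArg Prod.fst h
      have h5 := congrArg Prod.snd h
      exact Prod.ext (Subtype.ext h4) (Subtype.ext h5)
    have hset : {p : S2 N × DirichletCharacter ℂ q | p.1 ∈ HH N ∧ p.2 ∈ Y ∧ L p.1 p.2 (1 / 2) ≠ 0} =
        ((s.map ⟨_, hinj⟩ : Finset (S2 N × DirichletCharacter ℂ q)) :
          Set (S2 N × DirichletCharacter ℂ q)) := by
      ext p
      rw [Finset.coe_map, Set.mem_image]
      constructor
      · rintro ⟨h4, h5, h6⟩
        have h4' : p.1 ∈ B := by rw [hHB] at h4; exact h4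
        refine ⟨(⟨p.1, h4'⟩, ⟨p.2, hYX h5⟩), ?_, rfl⟩
        rw [hs', Finset.mem_coe, Finset.mem_filter]
        refine ⟨Finset.mem_univ _, h5, ?_⟩
        rw [← norm_ne_zero_iff, hval p.1 h4 p.2 h5]
        exact mul_ne_zero (hs _) (norm_ne_zero_iff.2 h6)
      · rintro ⟨r, hr, rfl⟩
        rw [hs', Finset.mem_coe, Finset.mem_filter] at hr
        have h4 : r.1.1 ∈ HH N := by rw [hHB]; exact r.1.2
        refine ⟨h4, hr.2.1, ?_⟩
        intro h0
        apply hr.2.2
        rw [← norm_eq_zero, hval r.1.1 h4 r.2.1 hr.2.1]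
        show Real.sqrt r.2.1.conductor * ‖L r.1.1 r.2.1 (1 / 2)‖ = 0
        have h0' : L r.1.1 r.2.1 (1 / 2) = 0 := h0
        rw [h0', norm_zero, mul_zero]
    rw [hset, finprod_mem_coe_finset, Finset.prod_map]
    refine Finset.prod_congr rfl fun r hr => ?_
    rw [hs', Finset.mem_filter] at hr
    have h4 : r.1.1 ∈ HH N := by rw [hHB]; exact r.1.2
    exact hval r.1.1 h4 r.2.1 hr.2.1

end Pool.Agent.Results.MP_cc4f83_nt.UniformAbelianTwists
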