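import Pool.Agent.Results.MP_cc4f83_nt.AbelianFields
import Pool.Agent.L5helper40.ZR.J
import Pool.Agent.L5helper40.ZR.Tw

/-!
# The zeros near the central point of the L-functions of weight two and prime level

Let `X` be a group of Dirichlet characters modulo `q` and let the prime `N` not divide `q`. We
consider the L-functions `L(s, f ⊗ χ)` of the newforms `f` of weight two and level `N`, `χ ∈ X`, that
do not vanish at `1/2`. The sum of `log⁺ (1 / |ρ - 1/2|)` over all zeros `ρ` of all of them, with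
multiplicity, is at most `C |X| |H_2(N)| log (N q)`. So in total at most
`C |X| |H_2(N)| log (N q) / log (1 / r)` zeros lie within `r` of the central point, `0 < r < 1`. And
the lower limit of the proportion of the even `f` with `L(1/2, f) ≠ 0` exceeds `θ` if and only if for
some `A` so does the lower limit of the proportion of the even `f` such that `L(s, f)` has no zero
with `|s - 1/2| < N ^ (-A)`; the same holds for the base changes of `f` to the field of `X`.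

Proof. Jensen's formula in the ball of radius `8`, where the L-functions are bounded by a power of
`N q`, and the lower bound for the product of the nonzero central values (`AbelianFields`).
-/

set_option autoImplicit false

open Complex Filter Topology Set UpperHalfPlane MatrixGroups CongruenceSubgroup

namespace Pool.Agent.Results.MP_cc4f83_nt.ZeroRepulsion

/-- the cusp forms of weight 2 for `Γ₀(N)` -/
abbrev S2 (N : ℕ) : Type := CuspForm (Gamma0 N : Subgroup (GL (Fin 2) ℝ)) 2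

/-- the newforms of root number `ε`: `a(1) = 1`, real coefficients, Hecke relations, and
`f(-1/(Nz)) = - ε N z² f(z)` with `ε = 1` or `ε = -1` (see `W388.IsNewf`) -/
def H (N : ℕ) (ε : ℝ) : Set (S2 N) := {f | W388.IsNewf N 2 f ε}

/-- all newforms -/
def HH (N : ℕ) : Set (S2 N) := H N 1 ∪ H N (-1)

/-- `L` is the L-function of `f ⊗ χ`: the entire continuation of `∑ χ*(n) λ_f(n) n^(-s)`, where
`χ*` is the primitive character that induces `χ` and `λ_f(n) = a(n) n^(-1/2)` -/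
def IsLfun {N q : ℕ} (f : S2 N) (χ : DirichletCharacter ℂ q) (L : ℂ → ℂ) : Prop :=
  Differentiable ℂ L ∧ ∀ s : ℂ, 4 < s.re → L s = ∑' n : ℕ,
    χ.primitiveCharacter (n : ZMod χ.conductor) * (W388.lamf f n : ℂ) * (n : ℂ) ^ (-s)

open Classical in
/-- the L-function `L(s, f ⊗ χ)` -/
noncomputable def Lf {N q : ℕ} (f : S2 N) (χ : DirichletCharacter ℂ q) : ℂ → ℂ :=
  if h : ∃ L : ℂ → ℂ, IsLfun f χ L then h.choose else 0

/-- the sum of `log⁺ (1 / |ρ - 1/2|)` over all zeros `ρ` of `L`, with multiplicity -/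
noncomputable def ZS (L : ℂ → ℂ) : ℝ :=
  ∑ᶠ ρ : ℂ, (analyticOrderNatAt L ρ : ℝ) * Real.posLog (‖ρ - 1 / 2‖⁻¹)

/-- the number of the zeros `ρ` of `L` with `|ρ - 1/2| < r`, with multiplicity -/
noncomputable def ZC (L : ℂ → ℂ) (r : ℝ) : ℕ :=
  ∑ᶠ ρ ∈ Metric.ball (1 / 2 : ℂ) r, analyticOrderNatAt L ρ

/-- the filter of the primes `N → ∞` -/
def primes : Filter ℕ := atTop ⊓ 𝓟 {N : ℕ | N.Prime}

open Pool.Agent.K4H13.CV Pool.Agent.Y18.BSD Pool.Agent.L5helper40.AF Pool.Agent.L5helper40.ZR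

theorem cv_eq {N q : ℕ} (f : S2 N) (χ : DirichletCharacter ℂ q) :
    AbelianFields.cv f χ = Lf f χ (1 / 2) := by
  unfold AbelianFields.cv Lf
  by_cases h : ∃ L : ℂ → ℂ, IsLfun f χ L
  · have h' : ∃ L : ℂ → ℂ, AbelianFields.IsLfun f χ L := h
    rw [dif_pos h, dif_pos h']
    rfl
  · have h' : ¬ ∃ L : ℂ → ℂ, AbelianFields.IsLfun f χ L := h
    rw [dif_neg h, dif_neg h']
    rfl

theorem ZS_eq (L : ℂ → ℂ) : ZS L = ∑ᶠ u : ℂ, zt L (1 / 2) u := rfl

theorem ZS_nonneg (L : ℂ → ℂ) : 0 ≤ ZS L := finsum_nonneg fun u => zt_nonneg L (1 / 2) u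

/-- the zeros in a small disc -/
theorem ZC_le {L : ℂ → ℂ} (h0 : L (1 / 2) ≠ 0)
    (hfin : (Function.support fun u => zt L (1 / 2) u).Finite)
    (hz : {u : ℂ | L u = 0 ∧ ‖u - 1 / 2‖ ≤ 8}.Finite) {r : ℝ} (hr1 : r < 1) :
    (ZC L r : ℝ) * Real.log (1 / r) ≤ ZS L := by
  -- the zeros in the disc
  have hsub : (Metric.ball (1 / 2 : ℂ) r ∩ Function.support fun ρ => analyticOrderNatAt L ρ) ⊆
        {u : ℂ | L u = 0 ∧ ‖u - 1 / 2‖ ≤ 8} := by
    intro u hu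
    refine ⟨apply_eq_zero_of_analyticOrderNatAt_ne_zero hu.2, ?_⟩
    have h1 := hu.1
    rw [mem_ball_iff_norm] at h1
    linarith
  have hfin' := hz.subset hsub
  have hc : ZC L r = ∑ ρ ∈ hfin'.toFinset, analyticOrderNatAt L ρ := by
    unfold ZC
    rw [← finsum_mem_inter_support, finsum_mem_eq_finite_toFinset_sum _ hfin']
  have hs : ∑ ρ ∈ hfin'.toFinset, zt L (1 / 2) ρ ≤ ZS L := by
    rw [ZS_eq, finsum_eq_sum_of_support_subset (s := hfin.toFinset ∪ hfin'.toFinset) _ (by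
      intro u hu
      rw [Finset.coe_union]
      exact Or.inl (by simpa using hu))]
    exact Finset.sum_le_sum_of_subset_of_nonneg Finset.subset_union_right
      fun u _ _ => zt_nonneg _ _ _
  refine le_trans ?_ hs
  rw [hc, Nat.cast_sum, Finset.sum_mul]
  refine Finset.sum_le_sum fun u hu => ?_
  rw [Set.Finite.mem_toFinset] at hu
  unfold zt
  refine mul_le_mul_of_nonneg_left ?_ (Nat.cast_nonneg _)
  have h1 := hu.1
  rw [mem_ball_iff_norm] at h1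
  have h2 : u ≠ 1 / 2 := by
    intro h
    exact h0 (by rw [← h]; exact (hsub hu).1)
  have h3 : 0 < ‖u - 1 / 2‖ := norm_pos_iff.2 (sub_ne_zero.2 h2)
  have hr0 : 0 < r := h3.trans h1
  have h4 : Real.log (1 / r) ≤ Real.log (‖u - 1 / 2‖⁻¹) := by
    refine Real.log_le_log (by positivity) ?_
    rw [one_div]
    exact inv_anti₀ h3 h1.le
  exact h4.trans (le_max_right _ _)

/-- everything for one prime -/
theorem one : ∃ C : ℝ, 0 < C ∧ ∀ N q : ℕ, N.Prime → 3 ≤ N → 1 ≤ q → q.Coprime N →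
    ∃ B : Finset (S2 N), HH N = B ∧ ∀ (X : Subgroup (DirichletCharacter ℂ q)) [Fintype X],
      (∀ f ∈ B, ∀ χ : X, IsLfun f χ.1 (Lf f χ.1)) ∧
      (∀ f ∈ B, ∀ χ : X, Lf f χ.1 (1 / 2) ≠ 0 →
        {u : ℂ | Lf f χ.1 u = 0 ∧ ‖u - 1 / 2‖ ≤ 8}.Finite ∧
        (Function.support fun u => zt (Lf f χ.1) (1 / 2) u).Finite) ∧
      ∑ p ∈ (B ×ˢ (Finset.univ : Finset X)) with Lf p.1 p.2.1 (1 / 2) ≠ 0, ZS (Lf p.1 p.2.1) ≤
        C * (((B.card * Fintype.card X : ℕ) : ℝ)) * Real.log ((N : ℝ) * q) := by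
  classical
  obtain ⟨C, hC, hone⟩ := AbelianFields.one
  obtain ⟨K, hK0, hK⟩ := relB
  obtain ⟨k0, hk0⟩ := pow_unbounded_of_one_lt K (show (1 : ℝ) < 3 by norm_num)
  refine ⟨k0 + 16 + 331, by positivity, fun N q hN h3 hq hqN => ?_⟩
  have : NeZero N := ⟨hN.ne_zero⟩
  have : NeZero q := ⟨by omega⟩
  obtain ⟨B, hB', hX⟩ := hone N q hN h3 hq hqN
  have hB : HH N = B := hB'
  have hN3 : (3 : ℝ) ≤ N := by exact_mod_cast h3
  have hq1 : (1 : ℝ) ≤ q := by exact_mod_cast hq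
  have hM3 : (3 : ℝ) ≤ (N : ℝ) * q := by nlinarith
  have hM0 : (0 : ℝ) < (N : ℝ) * q := by linarith
  have hM1 : (1 : ℝ) ≤ (N : ℝ) * q := by linarith
  have hlog : 0 < Real.log ((N : ℝ) * q) := Real.log_pos (by linarith)
  refine ⟨B, hB, ?_⟩
  intro X _
  obtain ⟨hX1, hX2, hX3⟩ := hX X
  have hLf : ∀ f ∈ B, ∀ χ : X, IsLfun f χ.1 (Lf f χ.1) := by
    intro f hf χ
    obtain ⟨L, hL, -⟩ := hX1 f hf χ
    have h : ∃ L : ℂ → ℂ, IsLfun f χ.1 L := ⟨L, hL⟩
    unfold Lf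
    rw [dif_pos h]
    exact h.choose_spec
  have hbd : ∀ f ∈ B, ∀ χ : X, ∀ s : ℂ, ‖s - 1 / 2‖ ≤ 8 →
      ‖Lf f χ.1 s‖ ≤ ((N : ℝ) * q) ^ (k0 + 16) := by
    intro f hf χ s hs
    have hf' : f ∈ HH N := by rw [hB]; exact hf
    obtain ⟨ε, hε⟩ : ∃ ε : ℝ, W388.IsNewf N 2 f ε := by
      rcases hf' with h | h
      · exact ⟨1, h⟩
      · exact ⟨-1, h⟩
    obtain ⟨L, h1, h2⟩ := hK N q hN hqN χ.1 f ε hε
    have h4 : IsLtw f χ.1 (Lf f χ.1) := hLf f hf χ
    rw [IsLtw.unique h4 h1]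
    refine (h2 s hs).trans ?_
    rw [pow_add]
    have e2 : K ≤ ((N : ℝ) * q) ^ k0 := hk0.le.trans (by gcongr)
    gcongr
  have hjens : ∀ f ∈ B, ∀ χ : X, Lf f χ.1 (1 / 2) ≠ 0 →
      {u : ℂ | Lf f χ.1 u = 0 ∧ ‖u - 1 / 2‖ ≤ 8}.Finite ∧
        (Function.support fun u => zt (Lf f χ.1) (1 / 2) u).Finite ∧
        ZS (Lf f χ.1) ≤ Real.log (((N : ℝ) * q) ^ (k0 + 16)) - Real.log ‖Lf f χ.1 (1 / 2)‖ := by
    intro f hf χ h0
    exact jens (hLf f hf χ).1 (one_le_pow₀ hM1) (hbd f hf χ) h0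
  refine ⟨hLf, fun f hf χ h0 => ⟨(hjens f hf χ h0).1, (hjens f hf χ h0).2.1⟩, ?_⟩
  set F := (B ×ˢ (Finset.univ : Finset X)).filter (fun p => Lf p.1 p.2.1 (1 / 2) ≠ 0) with hF
  have hFeq : (B ×ˢ (Finset.univ : Finset X)).filter
      (fun p => ‖AbelianFields.cv p.1 p.2.1‖ ≠ 0) = F := by
    refine Finset.filter_congr fun p _ => ?_
    rw [cv_eq, norm_ne_zero_iff]
  rw [hFeq] at hX3
  have hlow : -(331 * ((B.card * Fintype.card X : ℕ) : ℝ)) * Real.log ((N : ℝ) * q) ≤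
      ∑ p ∈ F, Real.log ‖Lf p.1 p.2.1 (1 / 2)‖ := by
    have h1 := Real.log_le_log (Real.rpow_pos_of_pos hM0 _) hX3
    rw [Real.log_rpow hM0] at h1
    refine h1.trans (le_of_eq ?_)
    rw [Real.log_prod (fun p hp => ?_)]
    · refine Finset.sum_congr rfl fun p _ => ?_
      rw [cv_eq]
    · rw [cv_eq, norm_ne_zero_iff]
      exact (Finset.mem_filter.1 hp).2
  have hcard : (F.card : ℝ) ≤ ((B.card * Fintype.card X : ℕ) : ℝ) := by
    have h1 : F.card ≤ B.card * Fintype.card X := by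
      refine (Finset.card_filter_le _ _).trans ?_
      rw [Finset.card_product, Finset.card_univ]
    exact_mod_cast h1
  calc ∑ p ∈ F, ZS (Lf p.1 p.2.1)
      ≤ ∑ p ∈ F, (Real.log (((N : ℝ) * q) ^ (k0 + 16)) - Real.log ‖Lf p.1 p.2.1 (1 / 2)‖) := by
        refine Finset.sum_le_sum fun p hp => ?_
        rw [hF, Finset.mem_filter, Finset.mem_product] at hp
        exact (hjens p.1 hp.1.1 p.2 hp.2).2.2
    _ = F.card * (((k0 + 16 : ℕ) : ℝ) * Real.log ((N : ℝ) * q)) -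
        ∑ p ∈ F, Real.log ‖Lf p.1 p.2.1 (1 / 2)‖ := by
        rw [Finset.sum_sub_distrib, Finset.sum_const, nsmul_eq_mul, Real.log_pow]
    _ ≤ ((B.card * Fintype.card X : ℕ) : ℝ) * (((k0 + 16 : ℕ) : ℝ) * Real.log ((N : ℝ) * q)) +
        331 * ((B.card * Fintype.card X : ℕ) : ℝ) * Real.log ((N : ℝ) * q) := by
        have h5 : (0 : ℝ) ≤ ((k0 + 16 : ℕ) : ℝ) * Real.log ((N : ℝ) * q) := by positivity
        have h6 := mul_le_mul_of_nonneg_right hcard h5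
        linarith
    _ = _ := by
        push_cast
        ring

/-- the forms with a zero in a small disc -/
theorem base {N q : ℕ} {C : ℝ} {B : Finset (S2 N)} (X : Subgroup (DirichletCharacter ℂ q))
    [Fintype X] (hM : (1 : ℝ) < (N : ℝ) * q)
    (hfin : ∀ f ∈ B, ∀ χ : X, Lf f χ.1 (1 / 2) ≠ 0 →
        {u : ℂ | Lf f χ.1 u = 0 ∧ ‖u - 1 / 2‖ ≤ 8}.Finite ∧
        (Function.support fun u => zt (Lf f χ.1) (1 / 2) u).Finite)
    (hdiff : ∀ f ∈ B, ∀ χ : X, Differentiable ℂ (Lf f χ.1))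
    (hs : ∑ p ∈ (B ×ˢ (Finset.univ : Finset X)) with Lf p.1 p.2.1 (1 / 2) ≠ 0, ZS (Lf p.1 p.2.1) ≤
        C * (((B.card * Fintype.card X : ℕ) : ℝ)) * Real.log ((N : ℝ) * q))
    {A : ℝ} (hA : 0 < A) {T : Finset (S2 N)} (hT : T ⊆ B)
    (hT1 : ∀ f ∈ T, ∀ χ : X, Lf f χ.1 (1 / 2) ≠ 0)
    (hT2 : ∀ f ∈ T, ∃ χ : X, ∃ ρ : ℂ, Lf f χ.1 ρ = 0 ∧
      ‖ρ - 1 / 2‖ < ((N : ℝ) * q) ^ (-(A * (Fintype.card X : ℝ)))) :
    (T.card : ℝ) ≤ C / A * B.card := by
  classical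
  have hlog : 0 < Real.log ((N : ℝ) * q) := Real.log_pos hM
  have hk1 : (0 : ℝ) < (Fintype.card X : ℝ) := by exact_mod_cast Fintype.card_pos
  have h1 : ∀ f ∈ T, A * (Fintype.card X : ℝ) * Real.log ((N : ℝ) * q) ≤
      ∑ χ : X, ZS (Lf f χ.1) := by
    intro f hf
    obtain ⟨χ, ρ, h2, h3⟩ := hT2 f hf
    have h4 := hfin f (hT hf) χ (hT1 f hf χ)
    have hM0 : 0 < (N : ℝ) * q := by linarith
    have hr1 : ((N : ℝ) * q) ^ (-(A * (Fintype.card X : ℝ))) < 1 :=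
      Real.rpow_lt_one_of_one_lt_of_neg hM (by
        have := mul_pos hA hk1
        linarith)
    have h5 := ZC_le (hT1 f hf χ) h4.2 h4.1 hr1
    have hlr : Real.log (1 / ((N : ℝ) * q) ^ (-(A * (Fintype.card X : ℝ)))) =
        A * (Fintype.card X : ℝ) * Real.log ((N : ℝ) * q) := by
      rw [one_div, Real.log_inv, Real.log_rpow hM0]
      ring
    rw [hlr] at h5
    have h6 : 1 ≤ ZC (Lf f χ.1) (((N : ℝ) * q) ^ (-(A * (Fintype.card X : ℝ)))) := by
      unfold ZC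
      have hsub : (Metric.ball (1 / 2 : ℂ) (((N : ℝ) * q) ^ (-(A * (Fintype.card X : ℝ)))) ∩
          Function.support fun ρ => analyticOrderNatAt (Lf f χ.1) ρ).Finite := by
        refine h4.1.subset fun u hu => ?_
        refine ⟨apply_eq_zero_of_analyticOrderNatAt_ne_zero hu.2, ?_⟩
        have h7 := hu.1
        rw [mem_ball_iff_norm] at h7
        linarith
      have h9 : ρ ∈ Metric.ball (1 / 2 : ℂ) (((N : ℝ) * q) ^ (-(A * (Fintype.card X : ℝ)))) := by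
        rw [mem_ball_iff_norm]
        exact h3
      have h10 : 1 ≤ analyticOrderNatAt (Lf f χ.1) ρ := by
        rw [Nat.one_le_iff_ne_zero]
        intro h11
        have han : AnalyticAt ℂ (Lf f χ.1) ρ := (hdiff f (hT hf) χ).analyticAt ρ
        have htop : analyticOrderAt (Lf f χ.1) ρ ≠ ⊤ := by
          intro hu
          have h12 : AnalyticOnNhd ℂ (Lf f χ.1) univ := fun z _ => (hdiff f (hT hf) χ).analyticAt z
          have h13 : Lf f χ.1 = 0 := by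
            refine h12.eq_of_eventuallyEq (g := 0) (fun z _ => analyticAt_const) (z₀ := ρ) ?_
            exact analyticOrderAt_eq_top.1 hu
          exact hT1 f hf χ (by rw [h13]; rfl)
        have h14 : analyticOrderAt (Lf f χ.1) ρ = 0 := by
          rw [← Nat.cast_analyticOrderNatAt htop, h11]; rfl
        exact (han.analyticOrderAt_eq_zero.1 h14) h2
      rw [← finsum_mem_inter_support, finsum_mem_eq_finite_toFinset_sum _ hsub]
      refine h10.trans (Finset.single_le_sum (f := fun ρ => analyticOrderNatAt (Lf f χ.1) ρ)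
        (fun _ _ => Nat.zero_le _) ?_)
      rw [Set.Finite.mem_toFinset]
      exact ⟨h9, by
        rw [Function.mem_support]
        omega⟩
    have h7 : A * (Fintype.card X : ℝ) * Real.log ((N : ℝ) * q) ≤ ZS (Lf f χ.1) := by
      refine le_trans ?_ h5
      have h8 : (1 : ℝ) ≤ (ZC (Lf f χ.1) (((N : ℝ) * q) ^ (-(A * (Fintype.card X : ℝ)))) : ℝ) := by
        exact_mod_cast h6
      have h9 : 0 ≤ A * (Fintype.card X : ℝ) * Real.log ((N : ℝ) * q) := by positivity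
      nlinarith
    exact h7.trans (Finset.single_le_sum (f := fun χ : X => ZS (Lf f χ.1))
      (fun _ _ => ZS_nonneg _) (Finset.mem_univ χ))
  have h2 : (T.card : ℝ) * (A * (Fintype.card X : ℝ) * Real.log ((N : ℝ) * q)) ≤
      C * (((B.card * Fintype.card X : ℕ) : ℝ)) * Real.log ((N : ℝ) * q) := by
    refine le_trans ?_ hs
    calc (T.card : ℝ) * (A * (Fintype.card X : ℝ) * Real.log ((N : ℝ) * q)) =
        ∑ f ∈ T, A * (Fintype.card X : ℝ) * Real.log ((N : ℝ) * q) := by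
          rw [Finset.sum_const, nsmul_eq_mul]
      _ ≤ ∑ f ∈ T, ∑ χ : X, ZS (Lf f χ.1) := Finset.sum_le_sum h1
      _ = ∑ p ∈ T ×ˢ (Finset.univ : Finset X), ZS (Lf p.1 p.2.1) := by rw [Finset.sum_product]
      _ ≤ _ := by
          refine Finset.sum_le_sum_of_subset_of_nonneg ?_ fun _ _ _ => ZS_nonneg _
          intro p hp
          rw [Finset.mem_product] at hp
          rw [Finset.mem_filter, Finset.mem_product]
          exact ⟨⟨hT hp.1, hp.2⟩, hT1 p.1 hp.1 p.2⟩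
  rw [div_mul_eq_mul_div, le_div_iff₀ hA]
  have h3 : 0 < (Fintype.card X : ℝ) * Real.log ((N : ℝ) * q) := by positivity
  refine le_of_mul_le_mul_right ?_ h3
  push_cast at h2
  linarith

open Classical in
theorem pairs_sum {M : Type*} [AddCommMonoid M] {N q : ℕ} {B : Finset (S2 N)} (hB : HH N = B)
    (X : Subgroup (DirichletCharacter ℂ q)) [Fintype X] (G : S2 N × DirichletCharacter ℂ q → M) :
    ∑ᶠ p ∈ {p : S2 N × DirichletCharacter ℂ q | p.1 ∈ HH N ∧ p.2 ∈ X ∧ Lf p.1 p.2 (1 / 2) ≠ 0}, G p =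
      ∑ p ∈ (B ×ˢ (Finset.univ : Finset X)) with Lf p.1 p.2.1 (1 / 2) ≠ 0, G (p.1, p.2.1) := by
  let ι : (S2 N × X) ↪ (S2 N × DirichletCharacter ℂ q) :=
    ⟨fun p => (p.1, p.2.1), fun p p' h => by
      have h1 := congrArg Prod.fst h
      have h2 := congrArg Prod.snd h
      exact Prod.ext h1 (Subtype.ext h2)⟩
  have e1 : ({p : S2 N × DirichletCharacter ℂ q | p.1 ∈ HH N ∧ p.2 ∈ X ∧
      Lf p.1 p.2 (1 / 2) ≠ 0} : Set _) =
      ((((B ×ˢ (Finset.univ : Finset X)).filter (fun p => Lf p.1 p.2.1 (1 / 2) ≠ 0)).map ι :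
        Finset (S2 N × DirichletCharacter ℂ q)) : Set (S2 N × DirichletCharacter ℂ q)) := by
    ext ⟨f, χ⟩
    rw [Finset.coe_map, Set.mem_image]
    constructor
    · rintro ⟨hf, hχ, h0⟩
      have hf' : f ∈ B := by
        have : f ∈ HH N := hf
        rw [hB] at this
        exact this
      refine ⟨(f, ⟨χ, hχ⟩), ?_, rfl⟩
      rw [Finset.mem_coe, Finset.mem_filter, Finset.mem_product]
      exact ⟨⟨hf', Finset.mem_univ _⟩, h0⟩
    · rintro ⟨p, hp, hpe⟩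
      rw [Finset.mem_coe, Finset.mem_filter, Finset.mem_product] at hp
      have h5 : p.1 = f := congrArg Prod.fst hpe
      have h6 : p.2.1 = χ := congrArg Prod.snd hpe
      refine ⟨?_, ?_, ?_⟩
      · show f ∈ HH N
        rw [hB, ← h5]
        exact hp.1.1
      · show χ ∈ X
        rw [← h6]
        exact p.2.2
      · show Lf f χ (1 / 2) ≠ 0
        rw [← h5, ← h6]
        exact hp.2
  rw [e1, finsum_mem_coe_finset, Finset.sum_map]
  rfl

theorem result : ∃ C : ℝ, 0 < C ∧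
    (∀ N q : ℕ, N.Prime → 3 ≤ N → 1 ≤ q → q.Coprime N → ∀ X : Subgroup (DirichletCharacter ℂ q),
      (HH N).Finite ∧
      (∀ f ∈ HH N, ∀ χ ∈ X, IsLfun f χ (Lf f χ) ∧
        (Lf f χ (1 / 2) ≠ 0 → {ρ : ℂ | Lf f χ ρ = 0 ∧ ‖ρ - 1 / 2‖ ≤ 8}.Finite)) ∧
      ∑ᶠ p ∈ {p : S2 N × DirichletCharacter ℂ q | p.1 ∈ HH N ∧ p.2 ∈ X ∧ Lf p.1 p.2 (1 / 2) ≠ 0},
        ZS (Lf p.1 p.2) ≤ C * ((Nat.card X : ℝ) * (HH N).ncard) * Real.log ((N : ℝ) * q) ∧
      ∀ r : ℝ, 0 < r → r < 1 →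
        ((∑ᶠ p ∈ {p : S2 N × DirichletCharacter ℂ q | p.1 ∈ HH N ∧ p.2 ∈ X ∧
            Lf p.1 p.2 (1 / 2) ≠ 0}, ZC (Lf p.1 p.2) r : ℕ) : ℝ) ≤
          C * ((Nat.card X : ℝ) * (HH N).ncard) * (Real.log ((N : ℝ) * q) / Real.log (1 / r))) ∧
    (∀ q : ℕ, 1 ≤ q → ∀ X : Subgroup (DirichletCharacter ℂ q), ∀ θ : ℝ,
      θ < liminf (fun N : ℕ => (({f ∈ H N 1 | ∀ χ ∈ X, Lf f χ (1 / 2) ≠ 0}.ncard : ℕ) : ℝ) /
        ((H N 1).ncard : ℝ)) primes ↔
      ∃ A : ℝ, 0 < A ∧ θ < liminf (fun N : ℕ =>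
        (({f ∈ H N 1 | ∀ χ ∈ X, ∀ s : ℂ, ‖s - 1 / 2‖ < (N : ℝ) ^ (-A) → Lf f χ s ≠ 0}.ncard : ℕ) :
          ℝ) / ((H N 1).ncard : ℝ)) primes) := by
  classical
  obtain ⟨C, hC, hone⟩ := one
  -- the forms with a zero near the central point
  have hbase : ∀ N q : ℕ, N.Prime → 3 ≤ N → 1 ≤ q → q.Coprime N →
      ∀ X : Subgroup (DirichletCharacter ℂ q), ∀ A : ℝ, 0 < A →
        (({f ∈ HH N | (∀ χ ∈ X, Lf f χ (1 / 2) ≠ 0) ∧ ∃ χ ∈ X, ∃ ρ : ℂ, Lf f χ ρ = 0 ∧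
            ‖ρ - 1 / 2‖ < ((N : ℝ) * q) ^ (-(A * Nat.card X))}.ncard : ℕ) : ℝ) ≤
          C / A * (HH N).ncard := by
    intro N q hN h3 hq hqN X A hA
    have : NeZero q := ⟨by omega⟩
    let _ : Fintype X := Fintype.ofFinite X
    obtain ⟨B, hB, hX⟩ := hone N q hN h3 hq hqN
    obtain ⟨h1, h2, h4⟩ := hX X
    have hN3 : (3 : ℝ) ≤ N := by exact_mod_cast h3
    have hq1 : (1 : ℝ) ≤ q := by exact_mod_cast hq
    have hM : (1 : ℝ) < (N : ℝ) * q := by nlinarith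
    set T : Finset (S2 N) := B.filter fun f => (∀ χ ∈ X, Lf f χ (1 / 2) ≠ 0) ∧ ∃ χ ∈ X, ∃ ρ : ℂ,
      Lf f χ ρ = 0 ∧ ‖ρ - 1 / 2‖ < ((N : ℝ) * q) ^ (-(A * Nat.card X)) with hT
    have h5 := base X hM h2 (fun f hf χ => (h1 f hf χ).1) h4 hA (T := T) (Finset.filter_subset _ _)
      (fun f hf χ => (Finset.mem_filter.1 hf).2.1 χ.1 χ.2)
      (fun f hf => by
        obtain ⟨χ, hχ, ρ, h6, h7⟩ := (Finset.mem_filter.1 hf).2.2
        refine ⟨⟨χ, hχ⟩, ρ, h6, ?_⟩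
        rwa [Nat.card_eq_fintype_card] at h7)
    have e1 : ({f ∈ HH N | (∀ χ ∈ X, Lf f χ (1 / 2) ≠ 0) ∧ ∃ χ ∈ X, ∃ ρ : ℂ, Lf f χ ρ = 0 ∧
            ‖ρ - 1 / 2‖ < ((N : ℝ) * q) ^ (-(A * Nat.card X))} : Set (S2 N)) = (T : Set (S2 N)) := by
      ext f
      rw [hT, Finset.coe_filter, hB]
      rfl
    rw [e1, Set.ncard_coe_finset, hB, Set.ncard_coe_finset]
    exact h5
  refine ⟨C, hC, ?_, ?_⟩
  · intro N q hN h3 hq hqN X
    have : NeZero q := ⟨by omega⟩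
    let _ : Fintype X := Fintype.ofFinite X
    obtain ⟨B, hB, hX⟩ := hone N q hN h3 hq hqN
    obtain ⟨h1, h2, h4⟩ := hX X
    have hN3 : (3 : ℝ) ≤ N := by exact_mod_cast h3
    have hq1 : (1 : ℝ) ≤ q := by exact_mod_cast hq
    have hM : (1 : ℝ) < (N : ℝ) * q := by nlinarith
    have hcX : Nat.card X = Fintype.card X := Nat.card_eq_fintype_card
    have hlog : 0 < Real.log ((N : ℝ) * q) := Real.log_pos hM
    have e0 : (((B.card * Fintype.card X : ℕ) : ℝ)) = (Nat.card X : ℝ) * ((HH N).ncard : ℝ) := by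
      rw [hB, Set.ncard_coe_finset, hcX]
      push_cast
      ring
    rw [e0] at h4
    refine ⟨by rw [hB]; exact B.finite_toSet, fun f hf χ hχ => ?_, ?_, fun r hr0 hr1 => ?_⟩
    · rw [hB] at hf
      exact ⟨h1 f hf ⟨χ, hχ⟩, fun h0 => (h2 f hf ⟨χ, hχ⟩ h0).1⟩
    · rw [pairs_sum hB X (fun p => ZS (Lf p.1 p.2))]
      exact h4
    · rw [pairs_sum hB X (fun p => ZC (Lf p.1 p.2) r)]
      have hlr : 0 < Real.log (1 / r) := Real.log_pos (by rw [lt_div_iff₀ hr0]; linarith)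
      have h5 : ((∑ p ∈ (B ×ˢ (Finset.univ : Finset X)) with Lf p.1 p.2.1 (1 / 2) ≠ 0,
          ZC (Lf p.1 p.2.1) r : ℕ) : ℝ) * Real.log (1 / r) ≤
          C * ((Nat.card X : ℝ) * ((HH N).ncard : ℝ)) * Real.log ((N : ℝ) * q) := by
        refine le_trans ?_ h4
        rw [Nat.cast_sum, Finset.sum_mul]
        refine Finset.sum_le_sum fun p hp => ?_
        rw [Finset.mem_filter, Finset.mem_product] at hp
        have h6 := h2 p.1 hp.1.1 p.2 hp.2
        exact ZC_le hp.2 h6.2 h6.1 hr1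
      rw [← mul_div_assoc, le_div_iff₀ hlr]
      exact h5
  · intro q hq X θ
    have : NeZero q := ⟨by omega⟩
    have hk : 1 ≤ Nat.card X := Nat.card_pos
    have hk' : (1 : ℝ) ≤ (Nat.card X : ℝ) := by exact_mod_cast hk
    have hbot : primes.NeBot := by
      unfold primes
      rw [← frequently_mem_iff_neBot]
      exact Nat.frequently_atTop_iff_infinite.2 Nat.infinite_setOfPred_prime
    have hprime : ∀ᶠ N in primes, N.Prime :=
      (eventually_principal.2 fun _ h => h : ∀ᶠ N in 𝓟 {N : ℕ | N.Prime}, N.Prime).filter_mono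
        inf_le_right
    have hlarge : ∀ᶠ N in primes, 650 + q ≤ N :=
      (eventually_ge_atTop (650 + q)).filter_mono inf_le_left
    have hfinH : ∀ N : ℕ, N.Prime → 3 ≤ N → (HH N).Finite := by
      intro N hN h3
      obtain ⟨B, hB, -⟩ := hone N 1 hN h3 le_rfl (Nat.coprime_one_left N)
      rw [hB]
      exact B.finite_toSet
    have heven : ∀ N : ℕ, N.Prime → 650 ≤ N → 0 < (H N 1).ncard ∧
        ((HH N).ncard : ℝ) ≤ 20 * ((H N 1).ncard : ℝ) := by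
      intro N hN h
      have h1 := EvenCentralValues.even_many hN (by omega)
      refine ⟨?_, ?_⟩
      · have h2 : N ≤ 36 * (H N 1).ncard + 65 := h1.1
        omega
      · have h2 : (HH N).ncard ≤ 20 * (H N 1).ncard := h1.2 h
        exact_mod_cast h2
    refine Fin.liminf_iff (l := primes) (fun N => ((H N 1).ncard : ℝ))
      (fun N => (({f ∈ H N 1 | ∀ χ ∈ X, Lf f χ (1 / 2) ≠ 0}.ncard : ℕ) : ℝ))
      (fun A N => (({f ∈ H N 1 | ∀ χ ∈ X, ∀ s : ℂ, ‖s - 1 / 2‖ < (N : ℝ) ^ (-A) →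
        Lf f χ s ≠ 0}.ncard : ℕ) : ℝ))
      (40 * (Nat.card X : ℝ) * C) (by positivity) ?_ ?_ ?_ ?_ θ
    · filter_upwards [hprime, hlarge] with N hN h100
      exact_mod_cast (heven N hN (by omega)).1
    · filter_upwards [hprime, hlarge] with N hN h100
      refine ⟨Nat.cast_nonneg _, ?_⟩
      have hfin : (H N 1).Finite := (hfinH N hN (by omega)).subset fun f hf => Or.inl hf
      have hs : {f ∈ H N 1 | ∀ χ ∈ X, Lf f χ (1 / 2) ≠ 0} ⊆ H N 1 := fun f hf => hf.1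
      exact Nat.cast_le.2 (Set.ncard_le_ncard hs hfin)
    · intro A
      filter_upwards [hprime, hlarge] with N hN h100
      refine ⟨Nat.cast_nonneg _, ?_⟩
      have hfin := hfinH N hN (by omega)
      have hN0 : (0 : ℝ) < N := Nat.cast_pos.2 hN.pos
      have hs : {f ∈ H N 1 | ∀ χ ∈ X, ∀ s : ℂ, ‖s - 1 / 2‖ < (N : ℝ) ^ (-A) → Lf f χ s ≠ 0} ⊆
          {f ∈ H N 1 | ∀ χ ∈ X, Lf f χ (1 / 2) ≠ 0} := by
        refine fun f hf => ⟨hf.1, fun χ hχ => hf.2 χ hχ (1 / 2) ?_⟩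
        rw [sub_self, norm_zero]
        exact Real.rpow_pos_of_pos hN0 _
      exact Nat.cast_le.2 (Set.ncard_le_ncard hs (hfin.subset fun f hf => Or.inl hf.1))
    · intro A hA
      filter_upwards [hprime, hlarge] with N hN h100
      have hfin := hfinH N hN (by omega)
      have hN0 : (0 : ℝ) < N := Nat.cast_pos.2 hN.pos
      have hN1 : (1 : ℝ) ≤ N := by exact_mod_cast hN.one_le
      have hqN : q.Coprime N := by
        rw [Nat.coprime_comm, Nat.Prime.coprime_iff_not_dvd hN]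
        intro h
        have := Nat.le_of_dvd (by omega) h
        omega
      set A' : ℝ := A / (2 * (Nat.card X : ℝ)) with hA'
      have hA'0 : 0 < A' := by positivity
      have h0 := hbase N q hN (by omega) hq hqN X A' hA'0
      have hcmp : (N : ℝ) ^ (-A) ≤ ((N : ℝ) * q) ^ (-(A' * Nat.card X)) := by
        have e1 : A' * Nat.card X = A / 2 := by
          rw [hA']
          field_simp
        rw [e1, Real.rpow_neg hN0.le, Real.rpow_neg (by positivity)]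
        refine inv_anti₀ (by positivity) ?_
        have e2 : (N : ℝ) * q ≤ (N : ℝ) ^ (2 : ℝ) := by
          have : (q : ℝ) ≤ N := by
            have : q ≤ N := by omega
            exact_mod_cast this
          rw [show (2 : ℝ) = ((2 : ℕ) : ℝ) by norm_num, Real.rpow_natCast]
          nlinarith
        calc ((N : ℝ) * q) ^ (A / 2) ≤ ((N : ℝ) ^ (2 : ℝ)) ^ (A / 2) :=
              Real.rpow_le_rpow (by positivity) e2 (by positivity)
          _ = (N : ℝ) ^ A := by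
              rw [← Real.rpow_mul hN0.le]
              congr 1
              ring
      have h2 : {f ∈ H N 1 | ∀ χ ∈ X, Lf f χ (1 / 2) ≠ 0} ⊆
          {f ∈ H N 1 | ∀ χ ∈ X, ∀ s : ℂ, ‖s - 1 / 2‖ < (N : ℝ) ^ (-A) → Lf f χ s ≠ 0} ∪
          {f ∈ HH N | (∀ χ ∈ X, Lf f χ (1 / 2) ≠ 0) ∧ ∃ χ ∈ X, ∃ ρ : ℂ, Lf f χ ρ = 0 ∧
            ‖ρ - 1 / 2‖ < ((N : ℝ) * q) ^ (-(A' * Nat.card X))} := by
        intro f hf
        by_cases h : ∀ χ ∈ X, ∀ s : ℂ, ‖s - 1 / 2‖ < (N : ℝ) ^ (-A) → Lf f χ s ≠ 0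
        · exact Or.inl ⟨hf.1, h⟩
        · push Not at h
          obtain ⟨χ, hχ, s, h5, h6⟩ := h
          exact Or.inr ⟨Or.inl hf.1, hf.2, χ, hχ, s, h6, h5.trans_le hcmp⟩
      have h3 : {f ∈ H N 1 | ∀ χ ∈ X, Lf f χ (1 / 2) ≠ 0}.ncard ≤
          {f ∈ H N 1 | ∀ χ ∈ X, ∀ s : ℂ, ‖s - 1 / 2‖ < (N : ℝ) ^ (-A) → Lf f χ s ≠ 0}.ncard +
          {f ∈ HH N | (∀ χ ∈ X, Lf f χ (1 / 2) ≠ 0) ∧ ∃ χ ∈ X, ∃ ρ : ℂ, Lf f χ ρ = 0 ∧
            ‖ρ - 1 / 2‖ < ((N : ℝ) * q) ^ (-(A' * Nat.card X))}.ncard := by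
        refine (Set.ncard_le_ncard h2 ?_).trans (Set.ncard_union_le _ _)
        exact (hfin.subset fun f hf => Or.inl hf.1).union (hfin.subset fun f hf => hf.1)
      have h4 : (({f ∈ H N 1 | ∀ χ ∈ X, Lf f χ (1 / 2) ≠ 0}.ncard : ℕ) : ℝ) ≤
          (({f ∈ H N 1 | ∀ χ ∈ X, ∀ s : ℂ, ‖s - 1 / 2‖ < (N : ℝ) ^ (-A) → Lf f χ s ≠ 0}.ncard : ℕ) :
            ℝ) +
          (({f ∈ HH N | (∀ χ ∈ X, Lf f χ (1 / 2) ≠ 0) ∧ ∃ χ ∈ X, ∃ ρ : ℂ, Lf f χ ρ = 0 ∧
            ‖ρ - 1 / 2‖ < ((N : ℝ) * q) ^ (-(A' * Nat.card X))}.ncard : ℕ) : ℝ) := by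
        exact_mod_cast h3
      have h5 := (heven N hN (by omega)).2
      have h6 : C / A' * ((HH N).ncard : ℝ) ≤
          40 * (Nat.card X : ℝ) * C / A * ((H N 1).ncard : ℝ) := by
        have e1 : C / A' = 2 * (Nat.card X : ℝ) * C / A := by
          rw [hA']
          field_simp
        rw [e1]
        calc 2 * (Nat.card X : ℝ) * C / A * ((HH N).ncard : ℝ) ≤
            2 * (Nat.card X : ℝ) * C / A * (20 * ((H N 1).ncard : ℝ)) :=
              mul_le_mul_of_nonneg_left h5 (by positivity)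
          _ = _ := by ring
      linarith

end Pool.Agent.Results.MP_cc4f83_nt.ZeroRepulsion
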